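/-
helper10: permutation stability of finitely generated metabelian groups of rank at most one
(M abelian normal, G/M abelian with a cyclic subgroup of finite index).  Definitions.
-/
import Pool.Agent.H90.PS.INT

set_option autoImplicit false

open MeasureTheory Filter Topology
open Pool.Agent.H10.PS

namespace Pool.Agent.H10.PB

/-- Standing assumptions: `F/R` abelian, `[R,R] ≤ N ≤ R`, both normal in `F`. -/
structure Sett {r : ℕ} (R N : Subgroup (FG r)) : Prop where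
  Rn : R.Normal
  Nn : N.Normal
  comm : commutator (FG r) ≤ R
  NR : N ≤ R
  RR : ⁅R, R⁆ ≤ N

/-- The normaliser of `H` in `R`. -/
def nor {r : ℕ} (R H : Subgroup (FG r)) : Subgroup (FG r) where
  carrier := {a | a ∈ R ∧ ∀ x, x ∈ H ↔ a * x * a⁻¹ ∈ H}
  one_mem' := ⟨R.one_mem, fun x => by simp⟩
  mul_mem' := by
    rintro a b ⟨ha, ha'⟩ ⟨hb, hb'⟩
    refine ⟨R.mul_mem ha hb, fun x => ?_⟩
    rw [hb' x, ha' (b * x * b⁻¹)]
    have : a * (b * x * b⁻¹) * a⁻¹ = a * b * x * (a * b)⁻¹ := by group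
    rw [this]
  inv_mem' := by
    rintro a ⟨ha, ha'⟩
    refine ⟨R.inv_mem ha, fun x => ?_⟩
    rw [ha' (a⁻¹ * x * a⁻¹⁻¹)]
    have : a * (a⁻¹ * x * a⁻¹⁻¹) * a⁻¹ = x := by group
    rw [this]

/-- Windows.  `U` is the preimage in `F` of the torsion subgroup of `F/R`; `V a b` is a finitely
generated (modulo `N`) subgroup of `U` which depends on the positions `a ≤ i < b` only;
conjugation by `t` is the shift. -/
structure Win {r : ℕ} (R N : Subgroup (FG r)) (t : FG r) where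
  U : Subgroup (FG r)
  V : ℤ → ℤ → Subgroup (FG r)
  w : ℕ
  R_le : R ≤ U
  fin : ∃ S : Finset (FG r), ∀ x ∈ U, ∃ y ∈ S, x * y⁻¹ ∈ R
  big : ∀ F₀ : Subgroup (FG r), R ≤ F₀ → ¬ F₀.FiniteIndex → F₀ ≤ U
  N_le : ∀ a b, N ≤ V a b
  V_le : ∀ a b, V a b ≤ U
  mono : ∀ a b a' b', a' ≤ a → b ≤ b' → V a b ≤ V a' b'
  shift : ∀ a b x, x ∈ V a b ↔ t * x * t⁻¹ ∈ V (a + 1) (b + 1)
  exh : ∀ x ∈ U, ∃ s : ℕ, x ∈ V (-s) s
  cover : ∀ a b, a < b → ∀ x ∈ U, ∃ y ∈ V a b, x * y⁻¹ ∈ R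
  inter : ∀ a b : ℤ, a + w ≤ b → ∀ x ∈ R, (∃ c, x ∈ V c b) → (∃ c, x ∈ V a c) → x ∈ V a b
  gen : ∀ a b c, a ≤ b → b ≤ c → V a c ⊓ R ≤ (V a b ⊓ R) ⊔ (V b c ⊓ R)
  count : ∀ a b, {K : Subgroup (FG r) | N ≤ K ∧ K ≤ V a b}.Countable

/-- The closing up of `K ≤ R` along the block `[0,n)` with overlap `s`: the subgroup generated by
the conjugates of `K ⊓ V (-s) (n+s)` by the powers of `t ^ n`. -/
def Cl {r : ℕ} {R N : Subgroup (FG r)} {t : FG r} (W : Win R N t) (s n : ℕ)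
    (K : Subgroup (FG r)) : Subgroup (FG r) :=
  Subgroup.closure {y | ∃ c : ℤ, ∃ x ∈ K, x ∈ R ∧ x ∈ W.V (-s) (n + s) ∧
    y = t ^ (c * n) * x * (t ^ (c * n))⁻¹}

/-- `H` can be closed up along `[0,n)` with overlap `s`. -/
structure Rec {r : ℕ} {R N : Subgroup (FG r)} {t : FG r} (W : Win R N t) (s n : ℕ)
    (H : Subgroup (FG r)) : Prop where
  N_le : N ≤ H
  le_U : H ≤ W.U
  n_pos : 0 < n
  w_le : W.w ≤ 2 * s
  g1 : ∀ x ∈ R, ∃ y ∈ W.V (-s) s, y ∈ R ∧ y⁻¹ * x ∈ nor R H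
  g1' : ∀ x ∈ R, ∃ y ∈ W.V (n - s) (n + s), y ∈ R ∧ y⁻¹ * x ∈ nor R H
  g2 : ∀ x ∈ H, ∃ y ∈ W.V (-s) s, y ∈ H ∧ x * y⁻¹ ∈ R
  g2' : ∀ x ∈ H, ∃ y ∈ W.V (n - s) (n + s), y ∈ H ∧ x * y⁻¹ ∈ R
  r1 : ∀ x ∈ W.V (-s) s, (x ∈ H ↔ t ^ n * x * (t ^ n)⁻¹ ∈ H)
  r2 : ∀ x ∈ W.V (-s) s, x ∈ R → (x ∈ nor R H ↔ t ^ n * x * (t ^ n)⁻¹ ∈ nor R H)

/-- The functional `φ` is at most `u` on the statistics of all finite `F/N`-sets. -/
def Dom {r : ℕ} (N : Subgroup (FG r)) (D : Finset (FG r)) (φ : {P // P ∈ D.powerset} → ℝ)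
    (u : ℝ) : Prop :=
  ∀ (Y : Type) (_ : Fintype Y) (_ : Nonempty Y) (τ : FG r →* Equiv.Perm Y),
    N ≤ τ.ker → ∑ P, φ P * freq τ D P ≤ u

open Classical in
/-- The average of `g` over the orbit of `x` under conjugation by `R` (0 if the orbit is
infinite). -/
noncomputable def ravg {r : ℕ} (R : Subgroup (FG r)) (g : XX r → ℝ) (x : XX r) : ℝ :=
  if h : {y | ∃ a ∈ R, y = conjX a x}.Finite then (∑ z ∈ h.toFinset, g z) / h.toFinset.card else 0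

end Pool.Agent.H10.PB
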