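/-
helper10: targets (as `Prop`s) of the modules for the rank one case of MP_b95bd9_al.
-/
import Pool.Agent.H10.PB.Defs

set_option autoImplicit false

open MeasureTheory Filter Topology
open Pool.Agent.H10.PS

namespace Pool.Agent.H10.PB

/-! ## Part 1: residual finiteness (P. Hall) and coset sums -/

/-- MODRF: finitely generated modules over finitely generated commutative rings. -/
def T_MODRF : Prop :=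
  ∀ (A M : Type) [CommRing A] [Algebra.FiniteType ℤ A] [AddCommGroup M] [Module A M]
    [Module.Finite A M] (m : M), m ≠ 0 → ∃ M' : Submodule A M, m ∉ M' ∧ Finite (M ⧸ M')

/-- FAB: finitely generated groups with finite commutator subgroup. -/
def T_FAB : Prop :=
  ∀ (Γ : Type) [Group Γ], Group.FG Γ → Finite (commutator Γ) → Group.ResiduallyFinite Γ

/-- HALL: finitely generated metabelian groups are residually finite. -/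
def T_HALL : Prop :=
  ∀ (Γ : Type) [Group Γ], Group.FG Γ → derivedSeries Γ 2 = ⊥ → Group.ResiduallyFinite Γ

/-- COS: the functional is at most `u` on the average over the cosets of `K`, if `K` has finite
index and normalises `H`. -/
def T_COS : Prop :=
  ∀ (r : ℕ) (R N : Subgroup (FG r)), Sett R N → ∀ (D : Finset (FG r))
    (φ : {P // P ∈ D.powerset} → ℝ) (u : ℝ), Dom N D φ u →
    ∀ H K : Subgroup (FG r), N ≤ H → (∀ a ∈ K, ∀ x, x ∈ H ↔ a * x * a⁻¹ ∈ H) →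
    ∀ (I : Type) [Fintype I] [Nonempty I] (g : I → FG r),
    Function.Bijective (fun i => (g i : FG r ⧸ K)) →
    ∀ x : XX r, (∀ w, x w = true ↔ w ∈ H) →
    ∑ i, Phi D φ (conjX (g i) x) ≤ u * Fintype.card I

/-! ## Part 2: windows and closing up -/

/-- NCL. -/
def T_NCL : Prop :=
  ∀ (r : ℕ) (R : Subgroup (FG r)), R.Normal → commutator (FG r) ≤ R →
    ∃ S : Finset (FG r), Subgroup.normalClosure (S : Set (FG r)) = R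

/-- WINA: windows in an abelian group with an automorphism. -/
def T_WINA : Prop :=
  ∀ (A : Type) [CommGroup A] (τ : MulAut A) (S : Finset A), ∃ w : ℕ, ∀ a b : ℤ, a + w ≤ b →
    ∀ x : A,
    (∃ c : ℤ, x ∈ Subgroup.closure {y | ∃ i : ℤ, c ≤ i ∧ i < b ∧ ∃ s ∈ S, y = (τ ^ i) s}) →
    (∃ c : ℤ, x ∈ Subgroup.closure {y | ∃ i : ℤ, a ≤ i ∧ i < c ∧ ∃ s ∈ S, y = (τ ^ i) s}) →
    x ∈ Subgroup.closure {y | ∃ i : ℤ, a ≤ i ∧ i < b ∧ ∃ s ∈ S, y = (τ ^ i) s}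

/-- WIN: existence of windows. -/
def T_WIN : Prop :=
  ∀ (r : ℕ) (R N : Subgroup (FG r)), Sett R N → ∀ t : FG r,
    (R ⊔ Subgroup.zpowers t).FiniteIndex → (∀ k : ℤ, t ^ k ∈ R → k = 0) → Nonempty (Win R N t)

/-- AMALG. -/
def T_AMALG : Prop :=
  ∀ (A : Type) [CommGroup A] (Wd E K : ℤ → Subgroup A), (∀ c, K c ≤ Wd c) →
    (∀ i x, x ∈ (⨆ c : {c : ℤ // c < i}, Wd c) → x ∈ (⨆ c : {c : ℤ // i ≤ c}, Wd c) → x ∈ E i) →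
    (∀ i, E i ≤ Wd (i - 1) ⊓ Wd i) → (∀ i, K (i - 1) ⊓ E i = K i ⊓ E i) →
    ∀ i, ∀ x ∈ Wd i, (x ∈ ⨆ c, K c ↔ x ∈ K i)

/-- CLOSE. -/
def T_CLOSE : Prop :=
  ∀ (r : ℕ) (R N : Subgroup (FG r)) (t : FG r), Sett R N → ∀ (W : Win R N t) (s n : ℕ)
    (K : Subgroup (FG r)), 0 < n → W.w ≤ 2 * s → N ≤ K → K ≤ R →
    (∀ x ∈ W.V (-s) s, x ∈ R → (x ∈ K ↔ t ^ n * x * (t ^ n)⁻¹ ∈ K)) →
    N ≤ Cl W s n K ∧ Cl W s n K ≤ R ∧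
    (∀ x ∈ W.V (-s) (n + s), (x ∈ Cl W s n K ↔ x ∈ K)) ∧
    (∀ x, x ∈ Cl W s n K ↔ t ^ n * x * (t ^ n)⁻¹ ∈ Cl W s n K) ∧
    ((∀ x ∈ R, ∃ y ∈ W.V (-s) s, y ∈ R ∧ y⁻¹ * x ∈ K) →
      (∀ x ∈ R, ∃ y ∈ W.V (n - s) (n + s), y ∈ R ∧ y⁻¹ * x ∈ K) →
      ∀ x ∈ R, ∃ y ∈ W.V (-s) s, y ∈ R ∧ y⁻¹ * x ∈ Cl W s n K)

/-- BL: closing up `H`. -/
def T_BL : Prop :=
  ∀ (r : ℕ) (R N : Subgroup (FG r)) (t : FG r), Sett R N → ∀ (W : Win R N t) (s n : ℕ)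
    (H : Subgroup (FG r)), Rec W s n H → ∃ H' M' : Subgroup (FG r),
    N ≤ H' ∧ H' ≤ W.U ∧ N ≤ M' ∧ M' ≤ R ∧
    (∀ x ∈ W.V (-s) (n + s), (x ∈ H' ↔ x ∈ H)) ∧
    (∀ x, x ∈ H' ↔ t ^ n * x * (t ^ n)⁻¹ ∈ H') ∧
    (∀ x, x ∈ M' ↔ t ^ n * x * (t ^ n)⁻¹ ∈ M') ∧
    (∀ a ∈ M', ∀ x, x ∈ H' ↔ a * x * a⁻¹ ∈ H') ∧
    (∀ x ∈ R, ∃ y ∈ W.V (-s) s, y ∈ R ∧ y⁻¹ * x ∈ M') ∧
    (∀ x ∈ W.V (-s) s, x ∈ R → (x ∈ M' ↔ x ∈ nor R H))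

/-- BLOCK. -/
def T_BLOCK : Prop :=
  ∀ (r : ℕ) (R N : Subgroup (FG r)) (t : FG r), Sett R N → (∀ k : ℤ, t ^ k ∈ R → k = 0) →
    ∀ (W : Win R N t) (D : Finset (FG r)) (φ : {P // P ∈ D.powerset} → ℝ) (u : ℝ), Dom N D φ u →
    ∀ tr : Finset (FG r), (∀ g, ∃! c, c ∈ tr ∧ c⁻¹ * g ∈ R ⊔ Subgroup.zpowers t) →
    ∀ s₀ : ℕ, (∀ c ∈ tr, ∀ w ∈ D, c⁻¹ * w * c ∈ W.U → c⁻¹ * w * c ∈ W.V (-s₀) s₀) →
    ∀ (s n : ℕ) (H : Subgroup (FG r)), s₀ ≤ s → Rec W s n H → ∀ x : XX r,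
    (∀ w, x w = true ↔ w ∈ H) → ∀ S : Finset (XX r), (∀ y, y ∈ S ↔ ∃ a ∈ R, y = conjX a x) →
    ∑ k ∈ Finset.range n, ∑ c ∈ tr, ∑ z ∈ S, Phi D φ (conjX c (conjX (t ^ k)⁻¹ z)) ≤
      u * (n * (tr.card * S.card))

/-- PT1. -/
def T_PT1 : Prop :=
  ∀ (r : ℕ) (R N : Subgroup (FG r)), Sett R N → ∀ (D : Finset (FG r))
    (φ : {P // P ∈ D.powerset} → ℝ) (u : ℝ), Dom N D φ u →
    ∀ F₀ : Subgroup (FG r), R ≤ F₀ → ∀ tr : Finset (FG r),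
    (∀ g, ∃! c, c ∈ tr ∧ c⁻¹ * g ∈ F₀) → ∀ H : Subgroup (FG r), N ≤ H → H ⊔ R = F₀ →
    ∀ x : XX r, (∀ w, x w = true ↔ w ∈ H) →
    ∀ S : Finset (XX r), (∀ y, y ∈ S ↔ ∃ a ∈ R, y = conjX a x) →
    ∑ c ∈ tr, ∑ z ∈ S, Phi D φ (conjX c z) ≤ u * (tr.card * S.card)

/-! ## Part 3: ergodic part -/

/-- COMB. -/
def T_COMB : Prop :=
  ∀ (n : ℕ) (a : ℕ → ℝ) (B : ℝ) (ι : Type) (I : Finset ι) (A : ι → Set ℕ), 0 ≤ B →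
    (∀ k, a k ≤ B) →
    (∀ i ∈ I, ∀ k l, k < l → l < n → k ∈ A i → l ∈ A i → ∑ j ∈ Finset.Ico k l, a j ≤ 0) →
    ∑ j ∈ Finset.range n, a j ≤ B * (Nat.card {k : Fin n // ∀ i ∈ I, (k : ℕ) ∉ A i} + I.card)

/-- ERG. -/
def T_ERG : Prop :=
  ∀ (X : Type) [MeasurableSpace X] (μ : Measure X) [IsProbabilityMeasure μ] (T : X → X),
    MeasurePreserving T μ μ → ∀ (f : X → ℝ) (C u : ℝ), AEStronglyMeasurable f μ →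
    (∀ x, |f x| ≤ C) → ∀ (ι : Type) [Countable ι] (G : ι → Set X), (∀ i, MeasurableSet (G i)) →
    (∀ i, ∀ᵐ x ∂μ, ∀ n : ℕ, 0 < n → x ∈ G i → T^[n] x ∈ G i →
      ∑ k ∈ Finset.range n, f (T^[k] x) ≤ u * n) →
    (∀ᵐ x ∂μ, ∃ i, x ∈ G i) → ∫ x, f x ∂μ ≤ u

/-- AVG. -/
def T_AVG : Prop :=
  ∀ (r : ℕ) (R N : Subgroup (FG r)), Sett R N → ∀ μ : Measure (XX r), IsIRS N μ →
    ∀ (g : XX r → ℝ) (C : ℝ), Measurable g → (∀ x, |g x| ≤ C) →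
    (∀ x, |ravg R g x| ≤ C) ∧ AEStronglyMeasurable (ravg R g) μ ∧
    ∀ X₀ : Set (XX r), MeasurableSet X₀ → (∀ a ∈ R, conjX a ⁻¹' X₀ = X₀) →
      ∫ x in X₀, ravg R g x ∂μ = ∫ x in X₀, g x ∂μ

/-- STATE. -/
def T_STATE : Prop :=
  ∀ (r : ℕ) (R N : Subgroup (FG r)) (t : FG r), Sett R N → ∀ (W : Win R N t) (s₀ : ℕ)
    (μ : Measure (XX r)), IsIRS N μ → ∀ F₀ : Subgroup (FG r), R ≤ F₀ → ¬ F₀.FiniteIndex →
    ∃ (ι : Type) (_ : Countable ι) (G : ι → Set (XX r)) (sc : ι → ℕ), (∀ i, s₀ ≤ sc i) ∧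
      (∀ i, MeasurableSet (G i)) ∧ (∀ᵐ x ∂μ, x ∈ XF R F₀ → ∃ i, x ∈ G i) ∧
      ∀ i, ∀ᵐ x ∂μ, ∀ n : ℕ, 0 < n → x ∈ XF R F₀ → x ∈ G i → conjX (t ^ n)⁻¹ x ∈ G i →
        ∃ H : Subgroup (FG r), (∀ w, x w = true ↔ w ∈ H) ∧ Rec W (sc i) n H

/-- PIECE (the estimate on the set of the `H` with `H R = F₀`). -/
def Piece {r : ℕ} (R N F₀ : Subgroup (FG r)) : Prop :=
  ∀ μ : Measure (XX r), IsIRS N μ → ∀ (D : Finset (FG r)) (φ : {P // P ∈ D.powerset} → ℝ) (u : ℝ),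
    Dom N D φ u → ∫ x in XF R F₀, Phi D φ x ∂μ ≤ u * μ.real (XF R F₀)

/-- PIECE1. -/
def T_PIECE1 : Prop :=
  ∀ (r : ℕ) (R N F₀ : Subgroup (FG r)), Sett R N → R ≤ F₀ → F₀.FiniteIndex → Piece R N F₀

/-- PIECE2. -/
def T_PIECE2 : Prop :=
  ∀ (r : ℕ) (R N F₀ : Subgroup (FG r)) (t : FG r), Sett R N → (∀ k : ℤ, t ^ k ∈ R → k = 0) →
    (R ⊔ Subgroup.zpowers t).FiniteIndex → Win R N t → R ≤ F₀ → ¬ F₀.FiniteIndex → Piece R N F₀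

/-- every invariant random subgroup of `F/N` is co-sofic -/
def ApprN {r : ℕ} (N : Subgroup (FG r)) : Prop :=
  ∀ μ : Measure (XX r), IsIRS N μ → ∀ (D : Finset (FG r)) (δ : ℝ), 0 < δ →
    ∃ (Y : Type) (_ : Fintype Y) (_ : Nonempty Y) (τ : FG r →* Equiv.Perm Y),
      N ≤ τ.ker ∧ ∀ P ∈ D.powerset, |freq τ D P - μ.real (cyl D P)| ≤ δ

/-- APPRB. -/
def T_APPRB : Prop :=
  ∀ (r : ℕ) (R N : Subgroup (FG r)), Sett R N → (∀ F₀, R ≤ F₀ → Piece R N F₀) → ApprN N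

/-! ## Part 4: stability -/

/-- almost actions are close to actions (ultrafilter form) -/
def SeqN {r : ℕ} (N : Subgroup (FG r)) : Prop :=
  ∀ (U : Ultrafilter ℕ) (n : ℕ → ℕ) (σ : ∀ k, FG r →* Equiv.Perm (Fin (n k))), (∀ k, 0 < n k) →
    (∀ w ∈ N, Tendsto (fun k => (Nat.card {ω : Fin (n k) // σ k w ω ≠ ω} : ℝ) / n k) U (𝓝 0)) →
    ∀ ε : ℝ, 0 < ε → ∀ᶠ k in (U : Filter ℕ), ∃ ρ : FG r →* Equiv.Perm (Fin (n k)),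
      N ≤ ρ.ker ∧ ∀ i, (Nat.card {ω : Fin (n k) // σ k (FreeGroup.of i) ω ≠
        ρ (FreeGroup.of i) ω} : ℝ) ≤ ε * n k

/-- SEQN. -/
def T_SEQN : Prop :=
  ∀ (r : ℕ) (R N : Subgroup (FG r)), Sett R N → ApprN N → SeqN N

/-- STABN. -/
def T_STABN : Prop :=
  ∀ (r : ℕ) (N : Subgroup (FG r)), SeqN N →
    ∀ (G : Type) [Group G] (π : FG r →* G), Function.Surjective π → π.ker = N → PermStable G

end Pool.Agent.H10.PB
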