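/-
helper10: BLOCK.
-/
import Pool.Agent.H10.PB.Targets

set_option autoImplicit false

open MeasureTheory Filter Topology
open Pool.Agent.H10.PS

namespace Pool.Agent.H10.PB

section block

variable {r : ℕ} {R N : Subgroup (FG r)} {t : FG r}

lemma conjX_of_nor {R H : Subgroup (FG r)} {x : XX r} (hx : ∀ w, x w = true ↔ w ∈ H) {a : FG r}
    (ha : a ∈ nor R H) : conjX a x = x := by
  funext w
  rw [Bool.eq_iff_iff]
  unfold conjX
  rw [hx, hx, ha.2 (a⁻¹ * w * a)]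
  have : a * (a⁻¹ * w * a) * a⁻¹ = w := by group
  rw [this]

lemma nor_of_conjX {R H : Subgroup (FG r)} {x : XX r} (hx : ∀ w, x w = true ↔ w ∈ H) {a : FG r}
    (haR : a ∈ R) (ha : conjX a x = x) : a ∈ nor R H := by
  refine ⟨haR, fun y => ?_⟩
  have h1 := congrFun ha (a * y * a⁻¹)
  unfold conjX at h1
  have h2 : a⁻¹ * (a * y * a⁻¹) * a = y := by group
  rw [h2] at h1
  rw [← hx, ← hx, h1]

lemma shift_pow (W : Win R N t) (a b : ℤ) (x : FG r) (k : ℕ) :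
    x ∈ W.V a b ↔ t ^ k * x * (t ^ k)⁻¹ ∈ W.V (a + k) (b + k) := by
  induction k with
  | zero => simp
  | succ k ih =>
    rw [ih, W.shift]
    have e1 : t * (t ^ k * x * (t ^ k)⁻¹) * t⁻¹ = t ^ (k + 1) * x * (t ^ (k + 1))⁻¹ := by
      rw [pow_succ' t k]
      group
    rw [e1]
    push_cast
    rw [add_assoc, add_assoc]

lemma conj_zpow_mem {M : Subgroup (FG r)} {p : FG r} (h : ∀ x, x ∈ M ↔ p * x * p⁻¹ ∈ M)
    (j : ℤ) (x : FG r) : x ∈ M ↔ p ^ j * x * (p ^ j)⁻¹ ∈ M := by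
  induction j using Int.induction_on with
  | zero => simp
  | succ k ih =>
    rw [ih, h]
    have : p * (p ^ (k : ℤ) * x * (p ^ (k : ℤ))⁻¹) * p⁻¹ =
        p ^ ((k : ℤ) + 1) * x * (p ^ ((k : ℤ) + 1))⁻¹ := by group
    rw [this]
  | pred k ih =>
    rw [ih, h (p ^ (-(k : ℤ) - 1) * x * (p ^ (-(k : ℤ) - 1))⁻¹)]
    have : p * (p ^ (-(k : ℤ) - 1) * x * (p ^ (-(k : ℤ) - 1))⁻¹) * p⁻¹ =
        p ^ (-(k : ℤ)) * x * (p ^ (-(k : ℤ)))⁻¹ := by group
    rw [this]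

/-- the subgroup of the `m p^j` -/
def KK (M : Subgroup (FG r)) (p : FG r) (h : ∀ x, x ∈ M ↔ p * x * p⁻¹ ∈ M) :
    Subgroup (FG r) where
  carrier := {y | ∃ m ∈ M, ∃ j : ℤ, y = m * p ^ j}
  one_mem' := ⟨1, M.one_mem, 0, by simp⟩
  mul_mem' := by
    rintro _ _ ⟨m, hm, i, rfl⟩ ⟨m', hm', j, rfl⟩
    refine ⟨m * (p ^ i * m' * (p ^ i)⁻¹), M.mul_mem hm ((conj_zpow_mem h i m').1 hm'),
      i + j, ?_⟩
    rw [zpow_add]
    group
  inv_mem' := by
    rintro _ ⟨m, hm, i, rfl⟩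
    refine ⟨p ^ (-i) * m⁻¹ * (p ^ (-i))⁻¹, (conj_zpow_mem h (-i) m⁻¹).1 (M.inv_mem hm), -i, ?_⟩
    group

theorem BLOCK (hBL : T_BL) (hCOS : T_COS) : T_BLOCK := by
  classical
  intro r R N t hS hinf W D φ u hDom tr htr s₀ hs₀ s n H hss hRec x hx S hSx
  have hRn := hS.Rn
  obtain ⟨H', M', hNH', hH'U, hNM', hM'R, h1, h2, h3, h4, h5, h6⟩ := hBL r R N t hS W s n H hRec
  have hnpos := hRec.n_pos
  -- representatives
  have hrep : ∀ z ∈ S, ∃ a, a ∈ W.V (-s) s ∧ a ∈ R ∧ z = conjX a x := by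
    intro z hz
    obtain ⟨b, hb, rfl⟩ := (hSx z).1 hz
    obtain ⟨y, hy, hyR, hyb⟩ := hRec.g1 b hb
    refine ⟨y, hy, hyR, ?_⟩
    have : b = y * (y⁻¹ * b) := by group
    rw [this, conjX_mul, conjX_of_nor hx hyb]
  choose! a haV haR haz using hrep
  set p := t ^ n with hp
  set K := KK M' p h3 with hK
  have hKmem : ∀ y, y ∈ K ↔ ∃ m ∈ M', ∃ j : ℤ, y = m * p ^ j := fun y => Iff.rfl
  -- K normalises H'
  have hKn : ∀ b ∈ K, ∀ y, y ∈ H' ↔ b * y * b⁻¹ ∈ H' := by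
    rintro b ⟨m, hm, j, rfl⟩ y
    rw [conj_zpow_mem h2 j y, h4 m hm]
    have : m * (p ^ j * y * (p ^ j)⁻¹) * m⁻¹ = m * p ^ j * y * (m * p ^ j)⁻¹ := by group
    rw [this]
  have hpz : ∀ j : ℤ, p ^ j = t ^ ((n : ℤ) * j) := by
    intro j
    rw [hp, ← zpow_natCast, ← zpow_mul]
  -- K ∩ R = M'
  have hKR : ∀ b ∈ K, b ∈ R → b ∈ M' := by
    rintro b ⟨m, hm, j, rfl⟩ hb
    have h7 : p ^ j ∈ R := by
      have := R.mul_mem (R.inv_mem (hM'R hm)) hb
      rwa [← mul_assoc, inv_mul_cancel, one_mul] at this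
    rw [hpz] at h7
    have h8 := hinf _ h7
    have h9 : j = 0 := by
      rcases mul_eq_zero.1 h8 with h | h
      · exfalso
        have : (n : ℤ) ≠ 0 := by exact_mod_cast hnpos.ne'
        exact this h
      · exact h
    rw [h9]
    simpa using hm
  let I := Fin n × tr × S
  let g : I → FG r := fun q => (q.2.1 : FG r) * (t ^ (q.1 : ℕ))⁻¹ * a (q.2.2 : XX r)
  have hRt : ∀ b : FG r, b ∈ R ⊔ Subgroup.zpowers t → ∃ k : ℤ, ∃ ρ ∈ R, b = (t ^ k)⁻¹ * ρ := by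
    intro b hb
    rw [Subgroup.mem_sup_of_normal_left] at hb
    obtain ⟨ρ, hρ, z, hz, rfl⟩ := hb
    obtain ⟨k, rfl⟩ := Subgroup.mem_zpowers_iff.mp hz
    refine ⟨-k, (t ^ k)⁻¹ * ρ * t ^ k, ?_, by group⟩
    have := hRn.conj_mem ρ hρ (t ^ k)⁻¹
    simpa using this
  have hRF : R ≤ R ⊔ Subgroup.zpowers t := le_sup_left
  have htF : ∀ k : ℤ, t ^ k ∈ R ⊔ Subgroup.zpowers t := fun k =>
    (le_sup_right : Subgroup.zpowers t ≤ _) (Subgroup.zpow_mem _ (Subgroup.mem_zpowers t) k)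
  have htF' : ∀ k : ℕ, t ^ k ∈ R ⊔ Subgroup.zpowers t := fun k => by
    have := htF k
    rwa [zpow_natCast] at this
  have hKF : K ≤ R ⊔ Subgroup.zpowers t := by
    rintro y ⟨m, hm, j, rfl⟩
    refine Subgroup.mul_mem _ (hRF (hM'R hm)) ?_
    rw [hpz]
    exact htF _
  -- bijection
  have hbij : Function.Bijective (fun i : I => (g i : FG r ⧸ K)) := by
    constructor
    · rintro ⟨k, ⟨c, hc⟩, ⟨z, hz⟩⟩ ⟨k', ⟨c', hc'⟩, ⟨z', hz'⟩⟩ heq
      have h7 : (g (k, ⟨c, hc⟩, ⟨z, hz⟩))⁻¹ * g (k', ⟨c', hc'⟩, ⟨z', hz'⟩) ∈ K :=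
        QuotientGroup.eq.1 heq
      have h7' : (c * (t ^ (k : ℕ))⁻¹ * a z)⁻¹ * (c' * (t ^ (k' : ℕ))⁻¹ * a z') ∈ K := h7
      -- the same `c`
      have hcc : c = c' := by
        obtain ⟨c₀, -, huniq⟩ := htr c'
        have e1 : c' = c₀ := huniq c' ⟨hc', by simp⟩
        have e2 : c = c₀ := by
          refine huniq c ⟨hc, ?_⟩
          have h8 := hKF h7'
          have e3 : c⁻¹ * c' = (t ^ (k : ℕ))⁻¹ * a z *
              ((c * (t ^ (k : ℕ))⁻¹ * a z)⁻¹ * (c' * (t ^ (k' : ℕ))⁻¹ * a z')) * (a z')⁻¹ *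
                t ^ (k' : ℕ) := by group
          rw [e3]
          refine Subgroup.mul_mem _ (Subgroup.mul_mem _ (Subgroup.mul_mem _ (Subgroup.mul_mem _
            (Subgroup.inv_mem _ (htF' _)) (hRF (haR z hz))) h8)
            (Subgroup.inv_mem _ (hRF (haR z' hz')))) (htF' _)
        rw [e2, e1]
      subst hcc
      obtain ⟨m, hm, j, hmj⟩ := h7'
      have e4 : (a z)⁻¹ * t ^ (k : ℕ) * (t ^ (k' : ℕ))⁻¹ * a z' = m * p ^ j := by
        rw [← hmj]
        group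
      -- the same `k`
      have e6 : t ^ (k : ℕ) * (t ^ (k' : ℕ))⁻¹ = a z * (m * p ^ j) * (a z')⁻¹ := by
        rw [← e4]
        group
      have h9 : t ^ ((k : ℤ) - k' - n * j) ∈ R := by
        have e5 : t ^ ((k : ℤ) - k' - n * j) =
            a z * m * (p ^ j * (a z')⁻¹ * (p ^ j)⁻¹) := by
          have e7 : t ^ ((k : ℤ) - k' - n * j) =
              t ^ (k : ℕ) * (t ^ (k' : ℕ))⁻¹ * (t ^ ((n : ℤ) * j))⁻¹ := by
            rw [← zpow_natCast, ← zpow_natCast, zpow_sub, zpow_sub]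
          rw [e7, e6, hpz]
          group
        rw [e5]
        exact R.mul_mem (R.mul_mem (haR z hz) (hM'R hm))
          (hRn.conj_mem _ (R.inv_mem (haR z' hz')) _)
      have h10 := hinf _ h9
      have hk1 := k.2
      have hk2 := k'.2
      have hj0 : j = 0 := by
        by_contra hj
        have h11 : (n : ℤ) * j = k - k' := by linarith
        have h12 : (n : ℤ) ≤ |(n : ℤ) * j| := by
          rw [abs_mul]
          have h13 : 1 ≤ |j| := Int.one_le_abs hj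
          have h14 : |(n : ℤ)| = n := abs_of_nonneg (by positivity)
          rw [h14]
          nlinarith
        rw [h11] at h12
        have h15 : |(k : ℤ) - k'| < n := by
          rw [abs_lt]
          constructor <;> omega
        linarith
      have hkk : k = k' := by
        apply Fin.ext
        rw [hj0] at h10
        have : (k : ℤ) = k' := by linarith
        exact_mod_cast this
      subst hkk
      -- the same `z`
      have h16 : (a z)⁻¹ * a z' ∈ M' := by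
        have e8 : (a z)⁻¹ * a z' = m * p ^ j := by
          rw [← e4]
          group
        rw [e8, hj0]
        simpa using hm
      have h17 : (a z)⁻¹ * a z' ∈ nor R H :=
        (h6 _ (Subgroup.mul_mem _ (Subgroup.inv_mem _ (haV z hz)) (haV z' hz'))
          (R.mul_mem (R.inv_mem (haR z hz)) (haR z' hz'))).1 h16
      have h18 : z = z' := by
        rw [haz z hz, haz z' hz']
        have e9 : a z' = a z * ((a z)⁻¹ * a z') := by group
        rw [e9, conjX_mul, conjX_of_nor hx h17]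
      subst h18
      rfl
    · intro q
      obtain ⟨f, rfl⟩ := QuotientGroup.mk_surjective q
      obtain ⟨c, ⟨hc, hcf⟩, -⟩ := htr f
      obtain ⟨k', ρ, hρ, hkρ⟩ := hRt _ hcf
      have hn0 : (0 : ℤ) < n := by exact_mod_cast hnpos
      have hm0 := Int.emod_nonneg k' hn0.ne'
      have hm1 := Int.emod_lt_of_pos k' hn0
      set k : ℕ := (k' % (n : ℤ)).toNat with hk
      have hkn : k < n := by omega
      have hkz : (k : ℤ) = k' % n := Int.toNat_of_nonneg hm0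
      set j : ℤ := k' / n with hj
      have hk'e : k' = k + n * j := by
        rw [hkz, hj]
        exact (Int.emod_add_mul_ediv k' n).symm
      set ρ' : FG r := (p ^ j)⁻¹ * ρ * p ^ j with hρ'
      have hρ'R : ρ' ∈ R := by
        have := hRn.conj_mem ρ hρ (p ^ j)⁻¹
        simpa [hρ'] using this
      obtain ⟨v, hvV, hvR, hvM⟩ := h5 ρ' hρ'R
      have hzS : conjX v x ∈ S := (hSx _).2 ⟨v, hvR, rfl⟩
      have haeq := haz _ hzS
      have h16 : (a (conjX v x))⁻¹ * v ∈ nor R H := by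
        refine nor_of_conjX hx (R.mul_mem (R.inv_mem (haR _ hzS)) hvR) ?_
        have e12 : conjX v x = conjX (a (conjX v x)) x := haeq
        rw [conjX_mul]
        calc conjX (a (conjX v x))⁻¹ (conjX v x)
            = conjX (a (conjX v x))⁻¹ (conjX (a (conjX v x)) x) := congrArg _ e12
          _ = x := by rw [← conjX_mul, inv_mul_cancel, conjX_one]
      have h17 : (a (conjX v x))⁻¹ * v ∈ M' :=
        (h6 _ (Subgroup.mul_mem _ (Subgroup.inv_mem _ (haV _ hzS)) hvV)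
          (R.mul_mem (R.inv_mem (haR _ hzS)) hvR)).2 h16
      refine ⟨(⟨k, hkn⟩, ⟨c, hc⟩, ⟨conjX v x, hzS⟩), ?_⟩
      show ((c * (t ^ k)⁻¹ * a (conjX v x) : FG r) : FG r ⧸ K) = (f : FG r ⧸ K)
      rw [QuotientGroup.eq]
      refine ⟨(a (conjX v x))⁻¹ * v * (v⁻¹ * ρ'), M'.mul_mem h17 hvM, -j, ?_⟩
      have e10 : f = c * ((t ^ k')⁻¹ * ρ) := by
        rw [← hkρ]
        group
      have e11 : (t ^ k')⁻¹ = (t ^ k)⁻¹ * (p ^ j)⁻¹ := by
        rw [hk'e, hpz, zpow_add, mul_inv_rev, ← mul_inv_rev, ← mul_inv_rev, ← zpow_natCast,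
          ← zpow_add, ← zpow_add, add_comm]
      rw [e10, e11, hρ']
      group
  -- the indicator function of `H'`
  set x' : XX r := fun w => decide (w ∈ H') with hx'
  have hx'' : ∀ w, x' w = true ↔ w ∈ H' := fun w => by simp [hx']
  -- local comparison
  have hUn : W.U.Normal := normal_of_commutator_le W.U (hS.comm.trans W.R_le)
  have hloc : ∀ i : I, Phi D φ (conjX (g i) x') = Phi D φ (conjX (g i) x) := by
    rintro ⟨k, ⟨c, hc⟩, ⟨z, hz⟩⟩
    apply Phi_congr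
    intro w hw
    show x' ((c * (t ^ (k : ℕ))⁻¹ * a z)⁻¹ * w * (c * (t ^ (k : ℕ))⁻¹ * a z)) = true ↔
      x ((c * (t ^ (k : ℕ))⁻¹ * a z)⁻¹ * w * (c * (t ^ (k : ℕ))⁻¹ * a z)) = true
    rw [hx'', hx]
    have e1 : (c * (t ^ (k : ℕ))⁻¹ * a z)⁻¹ * w * (c * (t ^ (k : ℕ))⁻¹ * a z) =
        (a z)⁻¹ * (t ^ (k : ℕ) * (c⁻¹ * w * c) * (t ^ (k : ℕ))⁻¹) * a z := by group
    rw [e1]
    by_cases hU : c⁻¹ * w * c ∈ W.U
    · apply h1
      have h7 := (shift_pow W (-s₀) s₀ _ (k : ℕ)).1 (hs₀ c hc w hw hU)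
      have hk := k.2
      have h8 : t ^ (k : ℕ) * (c⁻¹ * w * c) * (t ^ (k : ℕ))⁻¹ ∈ W.V (-s) (n + s) :=
        W.mono _ _ _ _ (by omega) (by omega) h7
      have h9 : a z ∈ W.V (-s) (n + s) := W.mono _ _ _ _ le_rfl (by omega) (haV z hz)
      exact Subgroup.mul_mem _ (Subgroup.mul_mem _ (Subgroup.inv_mem _ h9) h8) h9
    · have h7 : (a z)⁻¹ * (t ^ (k : ℕ) * (c⁻¹ * w * c) * (t ^ (k : ℕ))⁻¹) * a z ∉ W.U := by
        intro h8
        apply hU
        have h9 := hUn.conj_mem _ h8 ((t ^ (k : ℕ))⁻¹ * a z)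
        have e2 : (t ^ (k : ℕ))⁻¹ * a z * ((a z)⁻¹ * (t ^ (k : ℕ) * (c⁻¹ * w * c) *
            (t ^ (k : ℕ))⁻¹) * a z) * ((t ^ (k : ℕ))⁻¹ * a z)⁻¹ = c⁻¹ * w * c := by group
        rwa [e2] at h9
      constructor
      · intro h8
        exact absurd (hH'U h8) h7
      · intro h8
        exact absurd (hRec.le_U h8) h7
  have hI : Nonempty I := by
    obtain ⟨c, ⟨hc, -⟩, -⟩ := htr 1
    exact ⟨(⟨0, hnpos⟩, ⟨c, hc⟩, ⟨x, (hSx x).2 ⟨1, R.one_mem, (conjX_one x).symm⟩⟩)⟩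
  have hcos := hCOS r R N hS D φ u hDom H' K hNH' hKn I g hbij x' hx''
  rw [Finset.sum_congr rfl fun i _ => hloc i] at hcos
  have hcard : Fintype.card I = n * (tr.card * S.card) := by
    simp [I, Fintype.card_prod]
  rw [hcard] at hcos
  push_cast at hcos
  refine le_trans (le_of_eq ?_) hcos
  rw [Fintype.sum_prod_type]
  rw [← Fin.sum_univ_eq_sum_range (fun k => ∑ c ∈ tr, ∑ z ∈ S,
    Phi D φ (conjX c (conjX (t ^ k)⁻¹ z))) n]
  refine Finset.sum_congr rfl fun k _ => ?_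
  rw [Fintype.sum_prod_type]
  rw [← Finset.sum_coe_sort tr]
  refine Finset.sum_congr rfl fun c _ => ?_
  rw [← Finset.sum_coe_sort S]
  refine Finset.sum_congr rfl fun z _ => ?_
  show _ = Phi D φ (conjX ((c : FG r) * (t ^ (k : ℕ))⁻¹ * a (z : XX r)) x)
  rw [conjX_mul, conjX_mul]
  congr 3
  exact haz z z.2

end block

end Pool.Agent.H10.PB
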