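/-
helper10: BL.
-/
import Pool.Agent.H10.PB.Block

set_option autoImplicit false

open MeasureTheory Filter Topology
open Pool.Agent.H10.PS
open scoped commutatorElement

namespace Pool.Agent.H10.PB

section bl

variable {r : ℕ} {R N : Subgroup (FG r)} {t : FG r}

lemma comm_mem_R (hS : Sett R N) (a b : FG r) : a * b * a⁻¹ * b⁻¹ ∈ R := by
  apply hS.comm
  rw [commutator_def]
  have := Subgroup.commutator_mem_commutator (Subgroup.mem_top a) (Subgroup.mem_top b)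
  rwa [commutatorElement_def] at this

lemma comm_mem_N (hS : Sett R N) {a b : FG r} (ha : a ∈ R) (hb : b ∈ R) :
    a * b * a⁻¹ * b⁻¹ ∈ N := by
  apply hS.RR
  have := Subgroup.commutator_mem_commutator ha hb
  rwa [commutatorElement_def] at this

/-- conjugation by `R` acts trivially on the subgroups between `N` and `R`. -/
lemma conj_R_mem (hS : Sett R N) {K : Subgroup (FG r)} (hNK : N ≤ K) {ρ x : FG r} (hρ : ρ ∈ R)
    (hxR : x ∈ R) : x ∈ K ↔ ρ * x * ρ⁻¹ ∈ K := by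
  have h1 : ρ * x * ρ⁻¹ * x⁻¹ ∈ K := hNK (comm_mem_N hS hρ hxR)
  constructor
  · intro hx
    have := K.mul_mem h1 hx
    have e : ρ * x * ρ⁻¹ * x⁻¹ * x = ρ * x * ρ⁻¹ := by group
    rwa [e] at this
  · intro hx
    have := K.mul_mem (K.inv_mem h1) hx
    have e : (ρ * x * ρ⁻¹ * x⁻¹)⁻¹ * (ρ * x * ρ⁻¹) = x := by group
    rwa [e] at this

/-- If `h` normalises `L` and `V (-s) (n+s)`, it normalises `Cl L`. -/
lemma Cl_conj (hS : Sett R N) (W : Win R N t) (s n : ℕ) (L : Subgroup (FG r)) (hNC : N ≤ Cl W s n L)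
    (hCR : Cl W s n L ≤ R)
    (h : FG r) (hL : ∀ x ∈ L, x ∈ R → h * x * h⁻¹ ∈ L) (hV : h ∈ W.V (-s) (n + s)) :
    ∀ x ∈ Cl W s n L, h * x * h⁻¹ ∈ Cl W s n L := by
  have hRn := hS.Rn
  intro x hx
  refine Subgroup.closure_induction (p := fun x _ => h * x * h⁻¹ ∈ Cl W s n L) ?_ ?_ ?_ ?_ hx
  · rintro _ ⟨c, y, hy, hyR, hyV, rfl⟩
    -- `h = ρ (t^{cn} h t^{-cn})`
    set p := t ^ (c * (n : ℤ)) with hp
    have hgen : p * (h * y * h⁻¹) * p⁻¹ ∈ Cl W s n L := by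
      apply Subgroup.subset_closure
      exact ⟨c, h * y * h⁻¹, hL y hy hyR, hRn.conj_mem y hyR h,
        Subgroup.mul_mem _ (Subgroup.mul_mem _ hV hyV) (Subgroup.inv_mem _ hV), rfl⟩
    have hρ : h * p * h⁻¹ * p⁻¹ ∈ R := comm_mem_R hS h p
    have hR1 : p * (h * y * h⁻¹) * p⁻¹ ∈ R := hCR hgen
    have h1 := (conj_R_mem hS hNC hρ hR1).1 hgen
    have e : h * p * h⁻¹ * p⁻¹ * (p * (h * y * h⁻¹) * p⁻¹) * (h * p * h⁻¹ * p⁻¹)⁻¹ =
        h * (p * y * p⁻¹) * h⁻¹ := by group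
    rwa [e] at h1
  · simp
  · intro a b _ _ ha hb
    have := Subgroup.mul_mem _ ha hb
    have e : h * a * h⁻¹ * (h * b * h⁻¹) = h * (a * b) * h⁻¹ := by group
    rwa [e] at this
  · intro a _ ha
    have := Subgroup.inv_mem _ ha
    have e : (h * a * h⁻¹)⁻¹ = h * a⁻¹ * h⁻¹ := by group
    rwa [e] at this

theorem BL (hCL : T_CLOSE) : T_BL := by
  intro r R N t hS W s n H hRec
  have hRn := hS.Rn
  have hn := hRec.n_pos
  set L := H ⊓ R with hL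
  set M₁ := nor R H with hM₁
  have hNL : N ≤ L := le_inf hRec.N_le hS.NR
  have hNM : N ≤ M₁ := by
    intro a ha
    refine ⟨hS.NR ha, fun x => ?_⟩
    have haH := hRec.N_le ha
    constructor
    · intro hx
      exact H.mul_mem (H.mul_mem haH hx) (H.inv_mem haH)
    · intro hx
      have := H.mul_mem (H.mul_mem (H.inv_mem haH) hx) haH
      have e : a⁻¹ * (a * x * a⁻¹) * a = x := by group
      rwa [e] at this
  have hLR : L ≤ R := inf_le_right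
  have hMR : M₁ ≤ R := fun a ha => ha.1
  have recL : ∀ x ∈ W.V (-s) s, x ∈ R → (x ∈ L ↔ t ^ n * x * (t ^ n)⁻¹ ∈ L) := by
    intro x hx hxR
    rw [hL, Subgroup.mem_inf, Subgroup.mem_inf, ← hRec.r1 x hx]
    constructor
    · rintro ⟨h1, -⟩
      exact ⟨h1, hRn.conj_mem x hxR _⟩
    · rintro ⟨h1, -⟩
      exact ⟨h1, hxR⟩
  obtain ⟨c1, c2, c3, c4, -⟩ := hCL r R N t hS W s n L hn hRec.w_le hNL hLR recL
  obtain ⟨d1, d2, d3, d4, d5⟩ := hCL r R N t hS W s n M₁ hn hRec.w_le hNM hMR hRec.r2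
  set L' := Cl W s n L with hL'
  set M' := Cl W s n M₁ with hM'
  have hVle : W.V (-s) s ≤ W.V (-s) (n + s) := W.mono _ _ _ _ le_rfl (by omega)
  -- elements of `H ∩ V (-s) s` normalise `L'`
  have hnorm : ∀ h ∈ H, h ∈ W.V (-s) s → ∀ x ∈ L', h * x * h⁻¹ ∈ L' := by
    intro h hh hV
    refine Cl_conj hS W s n L c1 c2 h ?_ (hVle hV)
    rintro x ⟨hx1, hx2⟩ _
    exact ⟨H.mul_mem (H.mul_mem hh hx1) (H.inv_mem hh), hRn.conj_mem x hx2 h⟩
  -- the subgroup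
  let H' : Subgroup (FG r) :=
    { carrier := {y | ∃ l ∈ L', ∃ h ∈ H, h ∈ W.V (-s) s ∧ y = l * h}
      one_mem' := ⟨1, L'.one_mem, 1, H.one_mem, Subgroup.one_mem _, by simp⟩
      mul_mem' := by
        rintro _ _ ⟨l, hl, h, hh, hV, rfl⟩ ⟨l', hl', h', hh', hV', rfl⟩
        exact ⟨l * (h * l' * h⁻¹), L'.mul_mem hl (hnorm h hh hV l' hl'), h * h',
          H.mul_mem hh hh', Subgroup.mul_mem _ hV hV', by group⟩
      inv_mem' := by
        rintro _ ⟨l, hl, h, hh, hV, rfl⟩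
        exact ⟨h⁻¹ * l⁻¹ * h⁻¹⁻¹, hnorm h⁻¹ (H.inv_mem hh) (Subgroup.inv_mem _ hV) _
          (L'.inv_mem hl), h⁻¹, H.inv_mem hh, Subgroup.inv_mem _ hV, by group⟩ }
  have hH'mem : ∀ y, y ∈ H' ↔ ∃ l ∈ L', ∃ h ∈ H, h ∈ W.V (-s) s ∧ y = l * h := fun y => Iff.rfl
  have hL'H' : L' ≤ H' := fun l hl => ⟨l, hl, 1, H.one_mem, Subgroup.one_mem _, by simp⟩
  have hHH' : ∀ h ∈ H, h ∈ W.V (-s) s → h ∈ H' := fun h hh hV => ⟨1, L'.one_mem, h, hh, hV, by simp⟩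
  have hi : ∀ x ∈ W.V (-s) (n + s), (x ∈ H' ↔ x ∈ H) := by
    intro x hx
    constructor
    · rintro ⟨l, hl, h, hh, hV, rfl⟩
      have h1 : l ∈ W.V (-s) (n + s) := by
        have := Subgroup.mul_mem _ hx (Subgroup.inv_mem _ (hVle hV))
        have e : l * h * h⁻¹ = l := by group
        rwa [e] at this
      exact H.mul_mem ((c3 l h1).1 hl).1 hh
    · intro hxH
      obtain ⟨h, hV, hh, hR⟩ := hRec.g2 x hxH
      refine ⟨x * h⁻¹, ?_, h, hh, hV, by group⟩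
      refine (c3 _ (Subgroup.mul_mem _ hx (Subgroup.inv_mem _ (hVle hV)))).2 ?_
      exact ⟨H.mul_mem hxH (H.inv_mem hh), hR⟩
  have hshift : ∀ x, x ∈ W.V (-s) s → t ^ n * x * (t ^ n)⁻¹ ∈ W.V (n - s) (n + s) := by
    intro x hx
    have := (shift_pow W (-s) s x n).1 hx
    have e1 : (-(s : ℤ) + n) = n - s := by ring
    have e2 : ((s : ℤ) + n) = n + s := by ring
    rwa [e1, e2] at this
  have hVle2 : W.V (n - s) (n + s) ≤ W.V (-s) (n + s) := W.mono _ _ _ _ (by omega) le_rfl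
  have hii1 : ∀ x, x ∈ H' → t ^ n * x * (t ^ n)⁻¹ ∈ H' := by
    rintro _ ⟨l, hl, h, hh, hV, rfl⟩
    have h1 : t ^ n * l * (t ^ n)⁻¹ ∈ H' := hL'H' ((c4 l).1 hl)
    have h2 : t ^ n * h * (t ^ n)⁻¹ ∈ H' :=
      (hi _ (hVle2 (hshift h hV))).2 ((hRec.r1 h hV).1 hh)
    have := H'.mul_mem h1 h2
    have e : t ^ n * l * (t ^ n)⁻¹ * (t ^ n * h * (t ^ n)⁻¹) = t ^ n * (l * h) * (t ^ n)⁻¹ := by
      group
    rwa [e] at this
  have hii2 : ∀ x, x ∈ H' → (t ^ n)⁻¹ * x * t ^ n ∈ H' := by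
    rintro _ ⟨l, hl, h, hh, hV, rfl⟩
    have h1 : (t ^ n)⁻¹ * l * t ^ n ∈ H' := by
      apply hL'H'
      rw [c4]
      have e : t ^ n * ((t ^ n)⁻¹ * l * t ^ n) * (t ^ n)⁻¹ = l := by group
      rwa [e]
    have h2 : (t ^ n)⁻¹ * h * t ^ n ∈ H' := by
      obtain ⟨h₁, hV₁, hh₁, hR₁⟩ := hRec.g2' h hh
      set h₂ := (t ^ n)⁻¹ * h₁ * t ^ n with hh₂
      have e1 : t ^ n * h₂ * (t ^ n)⁻¹ = h₁ := by
        rw [hh₂]
        group
      have hV₂ : h₂ ∈ W.V (-s) s := by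
        rw [shift_pow W (-s) s h₂ n, e1]
        have e2 : (-(s : ℤ) + n) = n - s := by ring
        have e3 : ((s : ℤ) + n) = n + s := by ring
        rwa [e2, e3]
      have hH₂ : h₂ ∈ H := by
        rw [hRec.r1 h₂ hV₂, e1]
        exact hh₁
      have h3 : h * h₁⁻¹ ∈ L' := by
        refine (c3 _ (Subgroup.mul_mem _ (hVle hV) (Subgroup.inv_mem _ (hVle2 hV₁)))).2 ?_
        exact ⟨H.mul_mem hh (H.inv_mem hh₁), hR₁⟩
      have h4 : (t ^ n)⁻¹ * (h * h₁⁻¹) * t ^ n ∈ H' := by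
        apply hL'H'
        rw [c4]
        have e : t ^ n * ((t ^ n)⁻¹ * (h * h₁⁻¹) * t ^ n) * (t ^ n)⁻¹ = h * h₁⁻¹ := by group
        rwa [e]
      have := H'.mul_mem h4 (hHH' h₂ hH₂ hV₂)
      have e : (t ^ n)⁻¹ * (h * h₁⁻¹) * t ^ n * h₂ = (t ^ n)⁻¹ * h * t ^ n := by
        rw [hh₂]
        group
      rwa [e] at this
    have := H'.mul_mem h1 h2
    have e : (t ^ n)⁻¹ * l * t ^ n * ((t ^ n)⁻¹ * h * t ^ n) = (t ^ n)⁻¹ * (l * h) * t ^ n := by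
      group
    rwa [e] at this
  have hUn : W.U.Normal := normal_of_commutator_le W.U (hS.comm.trans W.R_le)
  refine ⟨H', M', ?_, ?_, d1, d2, hi, ?_, d4, ?_, ?_, ?_⟩
  · exact c1.trans hL'H'
  · rintro _ ⟨l, hl, h, hh, hV, rfl⟩
    exact W.U.mul_mem (W.R_le (c2 hl)) (hRec.le_U hh)
  · intro x
    refine ⟨hii1 x, fun hx => ?_⟩
    have := hii2 _ hx
    have e : (t ^ n)⁻¹ * (t ^ n * x * (t ^ n)⁻¹) * t ^ n = x := by group
    rwa [e] at this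
  · -- `M'` normalises `H'`
    have gen : ∀ (c : ℤ) (y : FG r), y ∈ M₁ → y ∈ R → y ∈ W.V (-s) (n + s) → ∀ x, x ∈ H' →
        (t ^ (c * (n : ℤ)) * y * (t ^ (c * (n : ℤ)))⁻¹) * x *
          (t ^ (c * (n : ℤ)) * y * (t ^ (c * (n : ℤ)))⁻¹)⁻¹ ∈ H' := by
      rintro c y hy hyR hyV _ ⟨l, hl, h, hh, hV, rfl⟩
      set p := t ^ (c * (n : ℤ)) with hp
      set a := p * y * p⁻¹ with ha
      have haR : a ∈ R := hRn.conj_mem y hyR p
      have h1 : a * l * a⁻¹ ∈ L' := (conj_R_mem hS c1 haR (c2 hl)).1 hl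
      -- the commutator of `y` and `h`
      set q := y * h * y⁻¹ * h⁻¹ with hq
      have hyhR : h * y⁻¹ * h⁻¹ ∈ R := hRn.conj_mem _ (R.inv_mem hyR) h
      have hqR : q ∈ R := by
        have : q = y * (h * y⁻¹ * h⁻¹) := by
          rw [hq]
          group
        rw [this]
        exact R.mul_mem hyR hyhR
      have hqH : q ∈ H := H.mul_mem ((hy.2 h).1 hh) (H.inv_mem hh)
      have hqV : q ∈ W.V (-s) (n + s) :=
        Subgroup.mul_mem _ (Subgroup.mul_mem _ (Subgroup.mul_mem _ hyV (hVle hV))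
          (Subgroup.inv_mem _ hyV)) (Subgroup.inv_mem _ (hVle hV))
      have hqL : p * q * p⁻¹ ∈ L' :=
        Subgroup.subset_closure ⟨c, q, ⟨hqH, hqR⟩, hqR, hqV, rfl⟩
      -- `h` and `p` commute modulo `R`
      set ρ := p⁻¹ * h * p * h⁻¹ with hρ
      have hρR : ρ ∈ R := by
        have := comm_mem_R hS p⁻¹ h
        rwa [inv_inv] at this
      have hν : ρ * (h * y⁻¹ * h⁻¹) * ρ⁻¹ * (h * y⁻¹ * h⁻¹)⁻¹ ∈ N := comm_mem_N hS hρR hyhR
      set ν := ρ * (h * y⁻¹ * h⁻¹) * ρ⁻¹ * (h * y⁻¹ * h⁻¹)⁻¹ with hνd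
      have hN1 : (p * y) * ν * (p * y)⁻¹ ∈ L' := c1 (hS.Nn.conj_mem ν hν (p * y))
      have e1 : a * h * a⁻¹ * h⁻¹ = ((p * y) * ν * (p * y)⁻¹) * (p * q * p⁻¹) := by
        rw [hνd, hρ, hq, ha]
        group
      have h2 : a * h * a⁻¹ * h⁻¹ ∈ L' := by
        rw [e1]
        exact L'.mul_mem hN1 hqL
      refine ⟨a * l * a⁻¹ * (a * h * a⁻¹ * h⁻¹), L'.mul_mem h1 h2, h, hh, hV, by group⟩
    have key : ∀ a ∈ M', ∀ x, x ∈ H' ↔ a * x * a⁻¹ ∈ H' := by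
      intro a ha
      refine Subgroup.closure_induction
        (p := fun a _ => ∀ x, x ∈ H' ↔ a * x * a⁻¹ ∈ H') ?_ ?_ ?_ ?_ ha
      · rintro _ ⟨c, y, hy, hyR, hyV, rfl⟩ x
        refine ⟨gen c y hy hyR hyV x, fun hx => ?_⟩
        have := gen c y⁻¹ (M₁.inv_mem hy) (R.inv_mem hyR) (Subgroup.inv_mem _ hyV) _ hx
        have e : t ^ (c * (n : ℤ)) * y⁻¹ * (t ^ (c * (n : ℤ)))⁻¹ *
            (t ^ (c * (n : ℤ)) * y * (t ^ (c * (n : ℤ)))⁻¹ * x *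
              (t ^ (c * (n : ℤ)) * y * (t ^ (c * (n : ℤ)))⁻¹)⁻¹) *
            (t ^ (c * (n : ℤ)) * y⁻¹ * (t ^ (c * (n : ℤ)))⁻¹)⁻¹ = x := by group
        rwa [e] at this
      · intro x
        simp
      · intro a b _ _ iha ihb x
        rw [ihb x, iha]
        have e : a * (b * x * b⁻¹) * a⁻¹ = a * b * x * (a * b)⁻¹ := by group
        rw [e]
      · intro a _ iha x
        rw [iha (a⁻¹ * x * a⁻¹⁻¹)]
        have e : a * (a⁻¹ * x * a⁻¹⁻¹) * a⁻¹ = x := by group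
        rw [e]
    exact key
  · exact d5 hRec.g1 hRec.g1'
  · intro x hx hxR
    exact d3 x (hVle hx)

end bl

end Pool.Agent.H10.PB
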