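/-
helper10: COS.
-/
import Pool.Agent.H10.PB.Block

set_option autoImplicit false

open MeasureTheory Filter Topology
open Pool.Agent.H10.PS

namespace Pool.Agent.H10.PB

section cos

lemma rf_finset (Γ : Type) [Group Γ] (h : Group.ResiduallyFinite Γ) (E : Set Γ) (hE : E.Finite)
    (h1 : ∀ e ∈ E, e ≠ 1) :
    ∃ V : Subgroup Γ, V.Normal ∧ V.FiniteIndex ∧ ∀ e ∈ E, e ∉ V := by
  classical
  have h2 : ∀ e : Γ, e ∈ E → ∃ V : Subgroup Γ, V.Normal ∧ V.FiniteIndex ∧ e ∉ V := by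
    intro e he
    obtain ⟨V, hV⟩ := Group.exists_finiteIndexNormalSubgroup_notMem e (h1 e he)
    exact ⟨V.toSubgroup, V.isNormal', V.isFiniteIndex', hV⟩
  choose! V hVn hVf hVe using h2
  have := hE.to_subtype
  refine ⟨⨅ e : E, V e, ?_, ?_, ?_⟩
  · exact Subgroup.normal_iInf_normal (fun e : E => hVn e e.2)
  · have : ∀ e : E, (V e).FiniteIndex := fun e => hVf e e.2
    exact Subgroup.finiteIndex_iInf (fun e : E => (hVf e e.2).index_ne_zero |> fun h => ⟨h⟩)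
  · intro e he hmem
    exact hVe e he ((Subgroup.mem_iInf.mp hmem) ⟨e, he⟩)

variable {r : ℕ}

lemma mem_nor_top {H : Subgroup (FG r)} {a : FG r} :
    a ∈ nor ⊤ H ↔ ∀ x, x ∈ H ↔ a * x * a⁻¹ ∈ H :=
  ⟨fun h => h.2, fun h => ⟨Subgroup.mem_top a, h⟩⟩

/-- finite index subgroups `Wt`, `H ≤ Wt ≤ N(H)`, normal in `N(H)`, which agree with `H` on a finite
set -/
lemma exists_Wt (hHall : T_HALL) {R N : Subgroup (FG r)} (hS : Sett R N) (H : Subgroup (FG r))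
    (hNH : N ≤ H) (hfi : (nor ⊤ H).FiniteIndex) (B : Finset (FG r)) :
    ∃ Wt : Subgroup (FG r), Wt.FiniteIndex ∧ H ≤ Wt ∧ Wt ≤ nor ⊤ H ∧
      (∀ a ∈ nor ⊤ H, ∀ x, x ∈ Wt ↔ a * x * a⁻¹ ∈ Wt) ∧ ∀ b ∈ B, b ∈ Wt → b ∈ H := by
  classical
  set W0 := nor ⊤ H with hW0
  have hHW : H ≤ W0 := by
    intro h hh
    rw [hW0, mem_nor_top]
    intro x
    constructor
    · intro hx
      exact H.mul_mem (H.mul_mem hh hx) (H.inv_mem hh)
    · intro hx
      have := H.mul_mem (H.mul_mem (H.inv_mem hh) hx) hh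
      have e : h⁻¹ * (h * x * h⁻¹) * h = x := by group
      rwa [e] at this
  set H₁ : Subgroup W0 := H.subgroupOf W0 with hH₁
  have hH₁n : H₁.Normal := by
    constructor
    intro n hn g
    exact (g.2.2 _).1 hn
  have hFG : Group.FG W0 := inferInstance
  have hFG' : Group.FG (W0 ⧸ H₁) := inferInstance
  have hder : derivedSeries (W0 ⧸ H₁) 2 = ⊥ := by
    rw [← map_derivedSeries_eq (QuotientGroup.mk'_surjective H₁) 2, eq_bot_iff]
    rintro _ ⟨x, hx, rfl⟩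
    rw [Subgroup.mem_bot]
    show (QuotientGroup.mk x : W0 ⧸ H₁) = 1
    rw [QuotientGroup.eq_one_iff, hH₁, Subgroup.mem_subgroupOf]
    apply hNH
    apply hS.RR
    have h1 : (x : FG r) ∈ derivedSeries (FG r) 2 :=
      map_derivedSeries_le_derivedSeries W0.subtype 2 ⟨x, hx, rfl⟩
    have h2 : derivedSeries (FG r) 2 ≤ ⁅R, R⁆ := by
      rw [derivedSeries_succ, derivedSeries_one]
      exact Subgroup.commutator_mono hS.comm hS.comm
    exact h2 h1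
  have hRF := hHall (W0 ⧸ H₁) hFG' hder
  let E : Set (W0 ⧸ H₁) := {q | ∃ s : W0, (s : FG r) ∈ B ∧ (s : FG r) ∉ H ∧ q = QuotientGroup.mk s}
  have hE : E.Finite := by
    let D0 : Set W0 := {s : W0 | (s : FG r) ∈ B}
    have hD0 : D0.Finite := B.finite_toSet.preimage (Subtype.val_injective.injOn)
    apply (hD0.image (fun s => (QuotientGroup.mk s : W0 ⧸ H₁))).subset
    rintro q ⟨s, hs, -, rfl⟩
    exact ⟨s, hs, rfl⟩
  obtain ⟨V, hVn, hVf, hVE⟩ := rf_finset (W0 ⧸ H₁) hRF E hE (by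
    rintro d ⟨s, hs, hsH, rfl⟩ h
    rw [QuotientGroup.eq_one_iff] at h
    exact hsH h)
  let V0 : Subgroup W0 := V.comap (QuotientGroup.mk' H₁)
  have hV0 : V0.FiniteIndex := ⟨by
    rw [Subgroup.index_comap_of_surjective _ (QuotientGroup.mk'_surjective H₁)]
    exact hVf.index_ne_zero⟩
  have hV0n : V0.Normal := inferInstance
  have hconj : ∀ s ∈ W0, ∀ x ∈ V0.map W0.subtype, s * x * s⁻¹ ∈ V0.map W0.subtype := by
    rintro s hs x ⟨y, hy, rfl⟩
    exact ⟨⟨s, hs⟩ * y * ⟨s, hs⟩⁻¹, hV0n.conj_mem y hy ⟨s, hs⟩, rfl⟩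
  refine ⟨V0.map W0.subtype, ?_, ?_, ?_, ?_, ?_⟩
  · constructor
    rw [Subgroup.index_map_subtype]
    exact mul_ne_zero hV0.index_ne_zero hfi.index_ne_zero
  · intro x hx
    refine ⟨⟨x, hHW hx⟩, ?_, rfl⟩
    change (QuotientGroup.mk (⟨x, hHW hx⟩ : W0) : W0 ⧸ H₁) ∈ V
    have : (QuotientGroup.mk (⟨x, hHW hx⟩ : W0) : W0 ⧸ H₁) = 1 := by
      rw [QuotientGroup.eq_one_iff]
      exact hx
    rw [this]
    exact V.one_mem
  · rintro x ⟨y, -, rfl⟩
    exact y.2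
  · intro a ha x
    refine ⟨hconj a ha x, fun hx => ?_⟩
    have := hconj a⁻¹ (W0.inv_mem ha) _ hx
    have e : a⁻¹ * (a * x * a⁻¹) * a⁻¹⁻¹ = x := by group
    rwa [e] at this
  · rintro d hd ⟨y, hy, rfl⟩
    by_contra hcon
    exact hVE _ ⟨y, hd, hcon, rfl⟩ hy

/-- sums over coset spaces of functions which factor through a smaller coset space -/
lemma sum_cosets (K W0 : Subgroup (FG r)) (hK : K ≤ W0) [Fintype (FG r ⧸ K)]
    [Fintype (FG r ⧸ W0)] (Ψ : FG r ⧸ W0 → ℝ) (Θ : FG r ⧸ K → ℝ)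
    (h : ∀ f : FG r, Θ (f : FG r ⧸ K) = Ψ (f : FG r ⧸ W0)) :
    ∃ c : ℕ, 0 < c ∧ Fintype.card (FG r ⧸ K) = c * Fintype.card (FG r ⧸ W0) ∧
      ∑ y, Θ y = c * ∑ q, Ψ q := by
  classical
  let e := Subgroup.quotientEquivProdOfLE hK
  have hfin : Finite (W0 ⧸ K.subgroupOf W0) := by
    have hne : Nonempty (FG r ⧸ W0) := ⟨((1 : FG r) : FG r ⧸ W0)⟩
    have : Finite ((FG r ⧸ W0) × (W0 ⧸ K.subgroupOf W0)) := Finite.of_equiv _ e
    exact Finite.prod_right (FG r ⧸ W0)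
  have := Fintype.ofFinite (W0 ⧸ K.subgroupOf W0)
  refine ⟨Fintype.card (W0 ⧸ K.subgroupOf W0), Fintype.card_pos_iff.2 ⟨((1 : W0) : _)⟩, ?_, ?_⟩
  · rw [Fintype.card_congr e, Fintype.card_prod, mul_comm]
  · have h1 : ∀ y, Θ y = Ψ (e y).1 := by
      intro y
      obtain ⟨f, rfl⟩ := QuotientGroup.mk_surjective y
      rw [h f]
      rfl
    rw [Finset.sum_congr rfl fun y _ => h1 y]
    rw [Equiv.sum_comp e (fun p => Ψ p.1), Fintype.sum_prod_type]
    simp [Finset.mul_sum]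

theorem COS (hHall : T_HALL) : T_COS := by
  classical
  intro r R N hS D φ u hDom H K hNH hKn I _ _ g hg x hx
  set W0 := nor ⊤ H with hW0
  have hKW : K ≤ W0 := fun a ha => mem_nor_top.2 (hKn a ha)
  have fK : Fintype (FG r ⧸ K) := Fintype.ofBijective _ hg
  have hKf : K.FiniteIndex := Subgroup.finiteIndex_of_finite_quotient
  have hW0f : W0.FiniteIndex := Subgroup.finiteIndex_of_le hKW
  have fW0 : Fintype (FG r ⧸ W0) := Fintype.ofFinite _
  obtain ⟨Wt, hWtf, hHWt, hWtW0, hconj, hB⟩ := exists_Wt hHall hS H hNH hW0f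
    ((Finset.univ ×ˢ D).image (fun p : I × FG r => (g p.1)⁻¹ * p.2 * g p.1))
  have fWt : Fintype (FG r ⧸ Wt) := Fintype.ofFinite _
  -- the function on the cosets of `W0`
  have hconjx : ∀ f a : FG r, a ∈ W0 → conjX (f * a) x = conjX f x := by
    intro f a ha
    rw [conjX_mul, conjX_of_nor hx ha]
  let Ψ : FG r ⧸ W0 → ℝ := fun q => Phi D φ (conjX q.out x)
  have hΨ : ∀ f : FG r, Phi D φ (conjX f x) = Ψ (f : FG r ⧸ W0) := by
    intro f
    show _ = Phi D φ (conjX (Quotient.out (f : FG r ⧸ W0)) x)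
    obtain ⟨a, ha⟩ := QuotientGroup.mk_out_eq_mul W0 f
    rw [ha, hconjx f a a.2]
  -- the action
  let τ : FG r →* Equiv.Perm (FG r ⧸ Wt) := MulAction.toPermHom (FG r) (FG r ⧸ Wt)
  have hτ : ∀ w f : FG r, τ w (f : FG r ⧸ Wt) = ((w * f : FG r) : FG r ⧸ Wt) := fun w f => rfl
  have hNτ : N ≤ τ.ker := by
    intro w hw
    rw [MonoidHom.mem_ker]
    ext y
    obtain ⟨f, rfl⟩ := QuotientGroup.mk_surjective y
    rw [hτ, Equiv.Perm.one_apply, QuotientGroup.eq]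
    have := hS.Nn.conj_mem _ (N.inv_mem hw) f⁻¹
    have e : (w * f)⁻¹ * f = f⁻¹ * w⁻¹ * f⁻¹⁻¹ := by group
    rw [e]
    exact hHWt (hNH this)
  have hne : Nonempty (FG r ⧸ Wt) := ⟨((1 : FG r) : _)⟩
  have h1 := hDom (FG r ⧸ Wt) fWt hne τ hNτ
  have h2 := sum_Phi τ D φ
  -- comparison
  have hcmp : ∀ f : FG r, Phi D φ (ptX τ (f : FG r ⧸ Wt)) = Ψ (f : FG r ⧸ W0) := by
    intro f
    obtain ⟨i, hi⟩ := hg.2 (f : FG r ⧸ K)
    have hk : (g i)⁻¹ * f ∈ K := QuotientGroup.eq.1 hi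
    set k := (g i)⁻¹ * f with hkd
    have hf : f = g i * k := by
      rw [hkd]
      group
    rw [← hΨ f, hf, hconjx (g i) k (hKW hk)]
    apply Phi_congr
    intro w hw
    rw [ptX_iff, hτ, eq_comm, QuotientGroup.eq]
    show _ ↔ x ((g i)⁻¹ * w * g i) = true
    rw [hx]
    have e : (g i * k)⁻¹ * (w * (g i * k)) = k⁻¹ * ((g i)⁻¹ * w * g i) * k⁻¹⁻¹ := by group
    rw [e, ← hconj k⁻¹ (W0.inv_mem (hKW hk))]
    constructor
    · intro h3
      refine hB _ ?_ h3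
      rw [Finset.mem_image]
      exact ⟨(i, w), by simp [hw], rfl⟩
    · intro h3
      exact hHWt h3
  obtain ⟨c, hc, hc1, hc2⟩ := sum_cosets Wt W0 hWtW0 Ψ (fun y => Phi D φ (ptX τ y)) hcmp
  obtain ⟨c', hc', hc1', hc2'⟩ := sum_cosets K W0 hKW Ψ (fun y => Ψ ((y.out : FG r) : FG r ⧸ W0))
    (by
      intro f
      obtain ⟨a, ha⟩ := QuotientGroup.mk_out_eq_mul K f
      rw [ha]
      congr 1
      rw [QuotientGroup.eq]
      have : (f * (a : FG r))⁻¹ * f = (a : FG r)⁻¹ := by group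
      rw [this]
      exact W0.inv_mem (hKW a.2))
  have hsum : ∑ i, Phi D φ (conjX (g i) x) = ∑ y : FG r ⧸ K, Ψ ((y.out : FG r) : FG r ⧸ W0) := by
    refine Fintype.sum_bijective _ hg _ _ fun i => ?_
    rw [hΨ]
    congr 1
    obtain ⟨a, ha⟩ := QuotientGroup.mk_out_eq_mul K (g i)
    rw [ha, QuotientGroup.eq]
    have : (g i)⁻¹ * (g i * (a : FG r)) = (a : FG r) := by group
    rw [this]
    exact hKW a.2
  have hcardI : Fintype.card I = Fintype.card (FG r ⧸ K) := Fintype.card_of_bijective hg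
  rw [hsum, hcardI, hc2', hc1']
  have hcR : (0 : ℝ) < c := by exact_mod_cast hc
  have h3 : (c : ℝ) * ∑ q, Ψ q ≤ c * (u * Fintype.card (FG r ⧸ W0)) := by
    rw [← hc2, h2, hc1]
    push_cast
    have h4 : (0 : ℝ) ≤ c * Fintype.card (FG r ⧸ W0) := by positivity
    nlinarith [mul_le_mul_of_nonneg_left h1 h4]
  have h5 := le_of_mul_le_mul_left h3 hcR
  push_cast
  have h6 : (0 : ℝ) ≤ c' := Nat.cast_nonneg _
  nlinarith [mul_le_mul_of_nonneg_left h5 h6]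

end cos

end Pool.Agent.H10.PB
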