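/-
helper10: FIN for the rank one case, group theoretic part: from `SeqN N` for all `N` to the final
statement about `G`.
-/
import Pool.Agent.H10.PB.Targets

set_option autoImplicit false

open MeasureTheory Filter Topology
open Pool.Agent.H10.PS

namespace Pool.Agent.H10.PB

/-- `Piece` for all `F₀`. -/
theorem piece_all (hW : T_WIN) (h1 : T_PIECE1) (h2 : T_PIECE2) {r : ℕ} {R N : Subgroup (FG r)}
    (hS : Sett R N) (t : FG r) (ht : (R ⊔ Subgroup.zpowers t).FiniteIndex) :
    ∀ F₀, R ≤ F₀ → Piece R N F₀ := by
  intro F₀ hF
  by_cases hfi : F₀.FiniteIndex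
  · exact h1 r R N F₀ hS hF hfi
  · have hinf : ∀ k : ℤ, t ^ k ∈ R → k = 0 := by
      intro k hk
      by_contra hk0
      apply hfi
      have hR : R.FiniteIndex := by
        have hRn := hS.Rn
        -- `R` has finite index in `R ⊔ ⟨t⟩`
        set F₁ := R ⊔ Subgroup.zpowers t with hF₁
        have hle : R ≤ F₁ := le_sup_left
        have hrel : R.relIndex F₁ ≠ 0 := by
          -- the finitely many powers of `t` are representatives
          have hfin : Finite (↥F₁ ⧸ R.subgroupOf F₁) := by
            have hsurj : Function.Surjective (fun i : Fin (k.natAbs) =>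
                ((⟨t ^ (i : ℕ), by
                  exact Subgroup.pow_mem _ ((le_sup_right : Subgroup.zpowers t ≤ F₁)
                    (Subgroup.mem_zpowers t)) _⟩ : ↥F₁) : ↥F₁ ⧸ R.subgroupOf F₁)) := by
              intro q
              obtain ⟨⟨g, hg⟩, rfl⟩ := QuotientGroup.mk_surjective q
              have hg' := hg
              rw [hF₁, Subgroup.mem_sup_of_normal_left] at hg'
              obtain ⟨ρ, hρ, z, hz, hgz⟩ := hg'
              obtain ⟨j, rfl⟩ := Subgroup.mem_zpowers_iff.mp hz
              have hkpos : (0 : ℤ) < k.natAbs := by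
                have := Int.natAbs_pos.mpr hk0
                exact_mod_cast this
              have hkR : t ^ (k.natAbs : ℤ) ∈ R := by
                rcases Int.natAbs_eq k with h | h
                · rwa [← h]
                · have := R.inv_mem hk
                  rw [h] at this
                  simpa using this
              have hm0 := Int.emod_nonneg j hkpos.ne'
              have hm1 := Int.emod_lt_of_pos j hkpos
              refine ⟨⟨(j % (k.natAbs : ℤ)).toNat, by omega⟩, ?_⟩
              rw [QuotientGroup.eq, Subgroup.mem_subgroupOf]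
              simp only [Subgroup.coe_mul, Subgroup.coe_inv]
              rw [← hgz]
              have e1 : t ^ ((j % (k.natAbs : ℤ)).toNat) = t ^ (j % (k.natAbs : ℤ)) := by
                rw [← zpow_natCast, Int.toNat_of_nonneg hm0]
              rw [e1]
              have e2 : t ^ j = t ^ (j % (k.natAbs : ℤ)) * (t ^ (k.natAbs : ℤ)) ^ (j / k.natAbs) := by
                rw [← zpow_mul, ← zpow_add]
                congr 1
                exact (Int.emod_add_mul_ediv j _).symm
              have e3 : (t ^ (j % (k.natAbs : ℤ)))⁻¹ * (ρ * t ^ j) =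
                  ((t ^ (j % (k.natAbs : ℤ)))⁻¹ * ρ * (t ^ (j % (k.natAbs : ℤ)))) *
                    ((t ^ (k.natAbs : ℤ)) ^ (j / k.natAbs)) := by
                rw [e2]
                group
              rw [e3]
              refine R.mul_mem ?_ (R.zpow_mem hkR _)
              have := hRn.conj_mem ρ hρ (t ^ (j % (k.natAbs : ℤ)))⁻¹
              simpa using this
            exact Finite.of_surjective _ hsurj
          have : (R.subgroupOf F₁).FiniteIndex := Subgroup.finiteIndex_of_finite_quotient
          exact Subgroup.FiniteIndex.index_ne_zero (H := R.subgroupOf F₁)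
        refine ⟨?_⟩
        rw [← Subgroup.relIndex_mul_index hle]
        exact mul_ne_zero hrel ht.index_ne_zero
      exact Subgroup.finiteIndex_of_le hF
    obtain ⟨W⟩ := hW r R N hS t ht hinf
    exact h2 r R N F₀ t hS hinf ht W hF hfi

/-- The final theorem, given `SeqN` for the groups of rank at most one. -/
theorem final (hseq : ∀ (r : ℕ) (R N : Subgroup (FG r)), Sett R N →
      (∃ t, (R ⊔ Subgroup.zpowers t).FiniteIndex) → SeqN N) (hstab : T_STABN)
    (G : Type) [Group G] (hG : Group.FG G) (M : Subgroup G) (hab : ∀ a ∈ M, ∀ b ∈ M, a * b = b * a)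
    (hc : commutator G ≤ M) (t₀ : G) (ht : (M ⊔ Subgroup.zpowers t₀).FiniteIndex) :
    PermStable G := by
  obtain ⟨r, π, hπ⟩ : ∃ (r : ℕ) (π : FG r →* G), Function.Surjective π := by
    obtain ⟨α, hα, f, hf⟩ := Group.fg_iff_exists_freeGroup_hom_surjective_finite.mp hG
    obtain ⟨n, ⟨e⟩⟩ := Finite.exists_equiv_fin α
    refine ⟨n, f.comp (FreeGroup.freeGroupCongr e.symm).toMonoidHom, ?_⟩
    exact hf.comp (FreeGroup.freeGroupCongr e.symm).surjective
  set R := M.comap π with hR
  set N := π.ker with hN
  have hMn : M.Normal := normal_of_commutator_le M hc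
  have hS : Sett R N := by
    refine ⟨inferInstance, inferInstance, ?_, ?_, ?_⟩
    · rw [hR, ← Subgroup.map_le_iff_le_comap, commutator_def, Subgroup.map_commutator]
      refine le_trans ?_ hc
      rw [commutator_def]
      exact Subgroup.commutator_mono le_top le_top
    · exact fun x hx => by
        rw [hR, Subgroup.mem_comap, hx]
        exact M.one_mem
    · rw [Subgroup.commutator_le]
      intro a ha b hb
      rw [hN, MonoidHom.mem_ker, map_commutatorElement, commutatorElement_def,
        hab _ ha _ hb]
      group
  obtain ⟨t, rfl⟩ := hπ t₀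
  have hfi : (R ⊔ Subgroup.zpowers t).FiniteIndex := by
    have h1 : (R ⊔ Subgroup.zpowers t) = (M ⊔ Subgroup.zpowers (π t)).comap π := by
      have h2 : (R ⊔ Subgroup.zpowers t).map π = M ⊔ Subgroup.zpowers (π t) := by
        rw [Subgroup.map_sup, hR, Subgroup.map_comap_eq_self_of_surjective hπ,
          MonoidHom.map_zpowers]
      rw [← h2, Subgroup.comap_map_eq_self]
      exact le_trans (fun x hx => by
        rw [hR, Subgroup.mem_comap, MonoidHom.mem_ker.mp hx]
        exact M.one_mem) le_sup_left
    rw [h1]
    refine ⟨?_⟩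
    rw [Subgroup.index_comap_of_surjective _ hπ]
    exact ht.index_ne_zero
  exact hstab r N (hseq r R N hS ⟨t, hfi⟩) G π hπ rfl

end Pool.Agent.H10.PB
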