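/-
helper10: PT1.
-/
import Pool.Agent.H10.PB.Block

set_option autoImplicit false

open MeasureTheory Filter Topology
open Pool.Agent.H10.PS

namespace Pool.Agent.H10.PB

section pt1

variable {r : ℕ}

/-- the subgroup of the `h b`, `h ∈ H`, `b ∈ nor R H` -/
def HB (R H : Subgroup (FG r)) : Subgroup (FG r) where
  carrier := {y | ∃ h ∈ H, ∃ b ∈ nor R H, y = h * b}
  one_mem' := ⟨1, H.one_mem, 1, (nor R H).one_mem, by simp⟩
  mul_mem' := by
    rintro _ _ ⟨h, hh, b, hb, rfl⟩ ⟨h', hh', b', hb', rfl⟩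
    refine ⟨h * (b * h' * b⁻¹), H.mul_mem hh ((hb.2 h').1 hh'), b * b',
      (nor R H).mul_mem hb hb', by group⟩
  inv_mem' := by
    rintro _ ⟨h, hh, b, hb, rfl⟩
    have hb' := (nor R H).inv_mem hb
    refine ⟨b⁻¹ * h⁻¹ * b⁻¹⁻¹, (hb'.2 h⁻¹).1 (H.inv_mem hh), b⁻¹, hb', by group⟩

theorem PT1 (hCOS : T_COS) : T_PT1 := by
  classical
  intro r R N hS D φ u hDom F₀ hRF tr htr H hNH hHR x hx S hSx
  have hRn := hS.Rn
  have hrep : ∀ z ∈ S, ∃ a, a ∈ R ∧ z = conjX a x := fun z hz => (hSx z).1 hz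
  choose! a haR haz using hrep
  set K := HB R H with hK
  have hKn : ∀ b ∈ K, ∀ y, y ∈ H ↔ b * y * b⁻¹ ∈ H := by
    rintro b ⟨h, hh, c, hc, rfl⟩ y
    rw [hc.2 y]
    have e1 : h * c * y * (h * c)⁻¹ = h * (c * y * c⁻¹) * h⁻¹ := by group
    rw [e1]
    constructor
    · intro h1
      exact H.mul_mem (H.mul_mem hh h1) (H.inv_mem hh)
    · intro h1
      have := H.mul_mem (H.mul_mem (H.inv_mem hh) h1) hh
      have e2 : h⁻¹ * (h * (c * y * c⁻¹) * h⁻¹) * h = c * y * c⁻¹ := by group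
      rwa [e2] at this
  have hKR : ∀ b ∈ K, b ∈ R → b ∈ nor R H := fun b hb hbR => ⟨hbR, hKn b hb⟩
  have hHF : H ≤ F₀ := by
    rw [← hHR]
    exact le_sup_left
  have hKF : K ≤ F₀ := by
    rintro y ⟨h, hh, b, hb, rfl⟩
    exact F₀.mul_mem (hHF hh) (hRF hb.1)
  let I := tr × S
  let g : I → FG r := fun q => (q.1 : FG r) * a (q.2 : XX r)
  have hbij : Function.Bijective (fun i : I => (g i : FG r ⧸ K)) := by
    constructor
    · rintro ⟨⟨c, hc⟩, ⟨z, hz⟩⟩ ⟨⟨c', hc'⟩, ⟨z', hz'⟩⟩ heq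
      have h7' : (c * a z)⁻¹ * (c' * a z') ∈ K := QuotientGroup.eq.1 heq
      have hcc : c = c' := by
        obtain ⟨c₀, -, huniq⟩ := htr c'
        have e1 : c' = c₀ := huniq c' ⟨hc', by simp⟩
        have e2 : c = c₀ := by
          refine huniq c ⟨hc, ?_⟩
          have h8 := hKF h7'
          have e3 : c⁻¹ * c' = a z * ((c * a z)⁻¹ * (c' * a z')) * (a z')⁻¹ := by group
          rw [e3]
          exact Subgroup.mul_mem _ (Subgroup.mul_mem _ (hRF (haR z hz)) h8)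
            (Subgroup.inv_mem _ (hRF (haR z' hz')))
        rw [e2, e1]
      subst hcc
      have e4 : (c * a z)⁻¹ * (c * a z') = (a z)⁻¹ * a z' := by group
      rw [e4] at h7'
      have h17 := hKR _ h7' (R.mul_mem (R.inv_mem (haR z hz)) (haR z' hz'))
      have h18 : z = z' := by
        rw [haz z hz, haz z' hz']
        have e9 : a z' = a z * ((a z)⁻¹ * a z') := by group
        rw [e9, conjX_mul, conjX_of_nor hx h17]
      subst h18
      rfl
    · intro q
      obtain ⟨f, rfl⟩ := QuotientGroup.mk_surjective q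
      obtain ⟨c, ⟨hc, hcf⟩, -⟩ := htr f
      rw [← hHR, sup_comm, Subgroup.mem_sup_of_normal_left] at hcf
      obtain ⟨ρ, hρ, h, hh, hρh⟩ := hcf
      have hzS : conjX ρ x ∈ S := (hSx _).2 ⟨ρ, hρ, rfl⟩
      have e12 : conjX ρ x = conjX (a (conjX ρ x)) x := haz _ hzS
      have h16 : (a (conjX ρ x))⁻¹ * ρ ∈ nor R H := by
        refine nor_of_conjX hx (R.mul_mem (R.inv_mem (haR _ hzS)) hρ) ?_
        rw [conjX_mul]
        calc conjX (a (conjX ρ x))⁻¹ (conjX ρ x)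
            = conjX (a (conjX ρ x))⁻¹ (conjX (a (conjX ρ x)) x) := congrArg _ e12
          _ = x := by rw [← conjX_mul, inv_mul_cancel, conjX_one]
      refine ⟨(⟨c, hc⟩, ⟨conjX ρ x, hzS⟩), ?_⟩
      show ((c * a (conjX ρ x) : FG r) : FG r ⧸ K) = (f : FG r ⧸ K)
      rw [QuotientGroup.eq]
      have e10 : (c * a (conjX ρ x))⁻¹ * f = ((a (conjX ρ x))⁻¹ * ρ) * h := by
        have : f = c * (ρ * h) := by
          rw [hρh]
          group
        rw [this]
        group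
      rw [e10]
      refine K.mul_mem ⟨1, H.one_mem, _, h16, by simp⟩ ⟨h, hh, 1, (nor R H).one_mem, by simp⟩
  have hI : Nonempty I := by
    obtain ⟨c, ⟨hc, -⟩, -⟩ := htr 1
    exact ⟨(⟨c, hc⟩, ⟨x, (hSx x).2 ⟨1, R.one_mem, (conjX_one x).symm⟩⟩)⟩
  have hcos := hCOS r R N hS D φ u hDom H K hNH hKn I g hbij x hx
  have hcard : Fintype.card I = tr.card * S.card := by
    simp [I, Fintype.card_prod]
  rw [hcard] at hcos
  push_cast at hcos
  refine le_trans (le_of_eq ?_) hcos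
  rw [Fintype.sum_prod_type]
  rw [← Finset.sum_coe_sort tr]
  refine Finset.sum_congr rfl fun c _ => ?_
  rw [← Finset.sum_coe_sort S]
  refine Finset.sum_congr rfl fun z _ => ?_
  show _ = Phi D φ (conjX ((c : FG r) * a (z : XX r)) x)
  rw [conjX_mul]
  congr 2
  exact haz z z.2

end pt1

end Pool.Agent.H10.PB
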