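/-
helper10: PIECE2.
-/
import Pool.Agent.H10.PB.Block
import Pool.Agent.H58.PS.CO
import Pool.Agent.H58.PS.FI

set_option autoImplicit false

open MeasureTheory Filter Topology
open Pool.Agent.H10.PS

namespace Pool.Agent.H10.PB

section piece2

variable {r : ℕ}

lemma exists_transversal (F₁ : Subgroup (FG r)) (h : F₁.FiniteIndex) :
    ∃ tr : Finset (FG r), ∀ g, ∃! c, c ∈ tr ∧ c⁻¹ * g ∈ F₁ := by
  classical
  have := Fintype.ofFinite (FG r ⧸ F₁)
  refine ⟨Finset.univ.image (fun q : FG r ⧸ F₁ => q.out), fun g => ?_⟩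
  refine ⟨(g : FG r ⧸ F₁).out, ⟨Finset.mem_image.2 ⟨_, Finset.mem_univ _, rfl⟩, ?_⟩, ?_⟩
  · obtain ⟨a, ha⟩ := QuotientGroup.mk_out_eq_mul F₁ g
    rw [ha]
    have : (g * (a : FG r))⁻¹ * g = (a : FG r)⁻¹ := by group
    rw [this]
    exact F₁.inv_mem a.2
  · rintro c ⟨hc, hcg⟩
    obtain ⟨q, -, rfl⟩ := Finset.mem_image.1 hc
    have h1 : ((q.out : FG r) : FG r ⧸ F₁) = (g : FG r ⧸ F₁) := QuotientGroup.eq.2 hcg
    have h2 : ((q.out : FG r) : FG r ⧸ F₁) = q := QuotientGroup.out_eq' q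
    rw [h2] at h1
    rw [h1]

lemma exists_scale {R N : Subgroup (FG r)} {t : FG r} (W : Win R N t) (B : Finset (FG r)) :
    ∃ s₀ : ℕ, ∀ b ∈ B, b ∈ W.U → b ∈ W.V (-s₀) s₀ := by
  classical
  choose! s hs using W.exh
  refine ⟨B.sup s, fun b hb hU => ?_⟩
  have h1 : s b ≤ B.sup s := Finset.le_sup hb
  exact W.mono _ _ _ _ (by omega) (by omega) (hs b hU)

lemma conjX_injective (p : FG r) : Function.Injective (conjX p : XX r → XX r) := by
  intro x y h
  have := congrArg (conjX p⁻¹) h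
  rwa [← conjX_mul, ← conjX_mul, inv_mul_cancel, conjX_one, conjX_one] at this

lemma ravg_conj {R : Subgroup (FG r)} (hR : R.Normal) (g : XX r → ℝ) (p : FG r) (x : XX r)
    (h : {y | ∃ a ∈ R, y = conjX a x}.Finite) :
    ravg R g (conjX p x) = (∑ z ∈ h.toFinset, g (conjX p z)) / h.toFinset.card := by
  classical
  have himg : {y | ∃ a ∈ R, y = conjX a (conjX p x)} = conjX p '' {y | ∃ a ∈ R, y = conjX a x} := by
    ext y
    constructor
    · rintro ⟨a, ha, rfl⟩
      refine ⟨conjX (p⁻¹ * a * p) x, ⟨p⁻¹ * a * p, ?_, rfl⟩, ?_⟩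
      · have := hR.conj_mem a ha p⁻¹
        simpa using this
      · rw [← conjX_mul, ← conjX_mul]
        congr 1
        group
    · rintro ⟨_, ⟨a, ha, rfl⟩, rfl⟩
      refine ⟨p * a * p⁻¹, hR.conj_mem a ha p, ?_⟩
      rw [← conjX_mul, ← conjX_mul]
      congr 1
      group
  have hfin : {y | ∃ a ∈ R, y = conjX a (conjX p x)}.Finite := by
    rw [himg]
    exact h.image _
  unfold ravg
  rw [dif_pos hfin]
  have hS : hfin.toFinset = h.toFinset.image (conjX p) := by
    ext y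
    rw [Set.Finite.mem_toFinset, himg, Finset.mem_image]
    simp
  rw [hS, Finset.sum_image (fun a _ b _ hab => conjX_injective p hab),
    Finset.card_image_of_injective _ (conjX_injective p)]

lemma iterate_conjX (t : FG r) (n : ℕ) (x : XX r) : (conjX t⁻¹)^[n] x = conjX (t ^ n)⁻¹ x := by
  induction n with
  | zero => simp [conjX_one]
  | succ n ih =>
    rw [Function.iterate_succ_apply', ih, ← conjX_mul]
    congr 1
    rw [pow_succ, mul_inv_rev]

lemma preimage_XF {R F₀ : Subgroup (FG r)} (hR : R.Normal) (hF₀ : F₀.Normal) (g : FG r) (x : XX r) :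
    conjX g x ∈ XF R F₀ ↔ x ∈ XF R F₀ := by
  have := XF_conj R hR F₀ hF₀ g
  exact ⟨fun h => by rw [← this]; exact h, fun h => by rw [← this] at h; exact h⟩

theorem PIECE2 (hSt : T_STATE) (hBl : T_BLOCK) (hErg : T_ERG) (hAvg : T_AVG) : T_PIECE2 := by
  classical
  intro r R N F₀ t hS hinf hfi W hRF hnF μ hμ D φ u hDom
  have hprob := hμ.prob
  have hRn := hS.Rn
  have hF₀n : F₀.Normal := normal_of_commutator_le F₀ (hS.comm.trans hRF)
  obtain ⟨tr, htr⟩ := exists_transversal (R ⊔ Subgroup.zpowers t) hfi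
  have htrpos : 0 < tr.card := by
    obtain ⟨c, ⟨hc, -⟩, -⟩ := htr 1
    exact Finset.card_pos.2 ⟨c, hc⟩
  have htrR : (0 : ℝ) < tr.card := by exact_mod_cast htrpos
  obtain ⟨s₀, hs₀⟩ := exists_scale W
    ((tr ×ˢ D).image (fun p : FG r × FG r => p.1⁻¹ * p.2 * p.1))
  have hs₀' : ∀ c ∈ tr, ∀ w ∈ D, c⁻¹ * w * c ∈ W.U → c⁻¹ * w * c ∈ W.V (-s₀) s₀ := by
    intro c hc w hw
    exact hs₀ _ (Finset.mem_image.2 ⟨(c, w), by simp [hc, hw], rfl⟩)
  set C := ∑ P, |φ P| with hC
  set X₀ := XF R F₀ with hX₀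
  have hX₀m : MeasurableSet X₀ := measurableSet_XF R F₀
  have hmPhi := measurable_Phi D φ
  set gh : XX r → ℝ := fun x => (∑ c ∈ tr, Phi D φ (conjX c x)) / tr.card with hgh
  have hghm : Measurable gh :=
    (Finset.measurable_fun_sum _ fun c _ => hmPhi.comp (measurable_conjX c)).div_const _
  have hghb : ∀ x, |gh x| ≤ C := by
    intro x
    show |(∑ c ∈ tr, Phi D φ (conjX c x)) / tr.card| ≤ C
    rw [abs_div, abs_of_pos htrR, div_le_iff₀ htrR]
    refine (Finset.abs_sum_le_sum_abs _ _).trans ?_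
    refine (Finset.sum_le_sum fun c _ => Phi_abs_le D φ _).trans ?_
    rw [Finset.sum_const, nsmul_eq_mul, mul_comm]
  obtain ⟨ha1, ha2, ha3⟩ := hAvg r R N hS μ hμ gh C hghm hghb
  obtain ⟨ι, hι, G, sc, hsc, hGm, hGfull, hGrec⟩ := hSt r R N t hS W s₀ μ hμ F₀ hRF hnF
  have hFI := Pool.Agent.H58.PS.FI Pool.Agent.H58.PS.CO r R N hRn hS.Nn hS.comm hS.NR hS.RR μ hμ
  set f : XX r → ℝ := fun x => if x ∈ X₀ then ravg R gh x else u with hf
  have hfm : AEStronglyMeasurable f μ := by
    have h1 : f = X₀.indicator (ravg R gh) + X₀ᶜ.indicator (fun _ => u) := by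
      funext x
      by_cases hx : x ∈ X₀
      · simp [hf, hx]
      · simp [hf, hx]
    rw [h1]
    exact (ha2.indicator hX₀m).add (aestronglyMeasurable_const.indicator hX₀m.compl)
  have hfb : ∀ x, |f x| ≤ max C |u| := by
    intro x
    by_cases hx : x ∈ X₀
    · simp only [hf, if_pos hx]
      exact (ha1 x).trans (le_max_left _ _)
    · simp only [hf, if_neg hx]
      exact le_max_right _ _
  have hT : MeasurePreserving (conjX t⁻¹ : XX r → XX r) μ μ :=
    ⟨measurable_conjX _, hμ.inv _⟩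
  let G' : Option ι → Set (XX r) := fun o => o.elim X₀ᶜ (fun i => G i ∩ X₀)
  have hmain : ∫ x, f x ∂μ ≤ u := by
    refine hErg (XX r) μ (conjX t⁻¹) hT f (max C |u|) u hfm hfb (Option ι) G' ?_ ?_ ?_
    · rintro (_ | i)
      · exact hX₀m.compl
      · exact (hGm i).inter hX₀m
    · rintro (_ | i)
      · refine ae_of_all _ fun x n hn hx _ => ?_
        have hx' : x ∉ X₀ := hx
        have h1 : ∀ k ∈ Finset.range n, f ((conjX t⁻¹)^[k] x) = u := by
          intro k _
          rw [iterate_conjX]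
          have : conjX (t ^ k)⁻¹ x ∉ X₀ := fun h => hx' ((preimage_XF hRn hF₀n _ x).1 h)
          simp only [hf, if_neg this]
        rw [Finset.sum_congr rfl h1, Finset.sum_const, Finset.card_range, nsmul_eq_mul, mul_comm]
      · filter_upwards [hGrec i, hFI] with x hrec hfin n hn hx hx'
        obtain ⟨hxG, hxX⟩ := hx
        rw [iterate_conjX] at hx'
        obtain ⟨H, hxH, hRec⟩ := hrec n hn hxX hxG hx'.1
        have hblk := hBl r R N t hS hinf W D φ u hDom tr htr s₀ hs₀' (sc i) n H (hsc i) hRec x hxH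
          hfin.toFinset (by
            intro y
            rw [Set.Finite.mem_toFinset]
            rfl)
        have hScard : (0 : ℝ) < hfin.toFinset.card := by
          have : hfin.toFinset.Nonempty := ⟨x, by
            rw [Set.Finite.mem_toFinset]
            exact ⟨1, R.one_mem, (conjX_one x).symm⟩⟩
          exact_mod_cast this.card_pos
        have h1 : ∀ k ∈ Finset.range n, f ((conjX t⁻¹)^[k] x) =
            (∑ c ∈ tr, ∑ z ∈ hfin.toFinset, Phi D φ (conjX c (conjX (t ^ k)⁻¹ z))) /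
              (tr.card * hfin.toFinset.card) := by
          intro k _
          rw [iterate_conjX]
          have : conjX (t ^ k)⁻¹ x ∈ X₀ := (preimage_XF hRn hF₀n _ x).2 hxX
          simp only [hf, if_pos this]
          rw [ravg_conj hRn gh _ x hfin, Finset.sum_comm]
          simp only [hgh]
          rw [← Finset.sum_div, div_div]
        rw [Finset.sum_congr rfl h1, ← Finset.sum_div, div_le_iff₀ (mul_pos htrR hScard)]
        refine hblk.trans (le_of_eq ?_)
        ring
    · filter_upwards [hGfull] with x hx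
      by_cases hxX : x ∈ X₀
      · obtain ⟨i, hi⟩ := hx hxX
        exact ⟨some i, hi, hxX⟩
      · exact ⟨none, hxX⟩
  -- integrals
  have hravgint : Integrable (ravg R gh) μ :=
    Integrable.of_bound ha2 C (ae_of_all _ fun x => by rw [Real.norm_eq_abs]; exact ha1 x)
  have hfint : Integrable f μ :=
    Integrable.of_bound hfm (max C |u|) (ae_of_all _ fun x => by rw [Real.norm_eq_abs]; exact hfb x)
  have hsplit := integral_add_compl hX₀m hfint
  have h1 : ∫ x in X₀, f x ∂μ = ∫ x in X₀, ravg R gh x ∂μ :=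
    setIntegral_congr_fun hX₀m fun x hx => by simp only [hf, if_pos hx]
  have h2 : ∫ x in X₀ᶜ, f x ∂μ = u * μ.real X₀ᶜ := by
    have : ∫ x in X₀ᶜ, f x ∂μ = ∫ x in X₀ᶜ, u ∂μ :=
      setIntegral_congr_fun hX₀m.compl fun x hx => by
        have hx' : x ∉ X₀ := hx
        simp only [hf, if_neg hx']
    rw [this, setIntegral_const, smul_eq_mul, mul_comm]
  have h3 : ∫ x in X₀, ravg R gh x ∂μ = ∫ x in X₀, gh x ∂μ :=
    ha3 X₀ hX₀m fun a _ => XF_conj R hRn F₀ hF₀n a
  have h4 : ∫ x in X₀, gh x ∂μ = ∫ x in X₀, Phi D φ x ∂μ := by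
    simp only [hgh]
    rw [integral_div, integral_finsetSum]
    · have h5 : ∀ c ∈ tr, ∫ x in X₀, Phi D φ (conjX c x) ∂μ = ∫ x in X₀, Phi D φ x ∂μ :=
        fun c _ => setIntegral_conj μ hμ.inv X₀ hX₀m c (XF_conj R hRn F₀ hF₀n c) _ hmPhi
      rw [Finset.sum_congr rfl h5, Finset.sum_const, nsmul_eq_mul]
      field_simp
    · intro c _
      exact Integrable.of_bound (hmPhi.comp (measurable_conjX c)).aestronglyMeasurable C
        (ae_of_all _ fun x => by rw [Real.norm_eq_abs]; exact Phi_abs_le D φ _)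
  have h6 : μ.real X₀ᶜ = 1 - μ.real X₀ := by
    rw [measureReal_compl hX₀m]
    simp
  rw [← h4, ← h3, ← h1]
  rw [h2, h6] at hsplit
  linarith

end piece2

end Pool.Agent.H10.PB
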