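/-
helper10: FIN, assembly of the rank one case.
-/
import Pool.Agent.H10.PB.FinA
import Pool.Agent.H10.PB.BL
import Pool.Agent.H10.PB.COS
import Pool.Agent.H10.PB.PT1
import Pool.Agent.H10.PB.Piece2

set_option autoImplicit false

open MeasureTheory Filter Topology
open Pool.Agent.H10.PS

namespace Pool.Agent.H10.PB

theorem FIN (hHall : T_HALL) (hCL : T_CLOSE) (hSt : T_STATE) (hErg : T_ERG) (hAvg : T_AVG)
    (hP1 : T_PT1 → T_AVG → T_PIECE1) (hW : T_WIN) (hA : T_APPRB) (hSeq : T_SEQN)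
    (hStab : T_STABN) (G : Type) [Group G] (hG : Group.FG G) (M : Subgroup G)
    (hab : ∀ a ∈ M, ∀ b ∈ M, a * b = b * a) (hc : commutator G ≤ M) (t₀ : G)
    (ht : (M ⊔ Subgroup.zpowers t₀).FiniteIndex) : PermStable G := by
  have hCOS : T_COS := COS hHall
  have hBL : T_BL := BL hCL
  have hBLOCK : T_BLOCK := BLOCK hBL hCOS
  have hp1 : T_PIECE1 := hP1 (PT1 hCOS) hAvg
  have hp2 : T_PIECE2 := PIECE2 hSt hBLOCK hErg hAvg
  refine final (fun r R N hS ht => ?_) hStab G hG M hab hc t₀ ht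
  obtain ⟨t, ht⟩ := ht
  exact hSeq r R N hS (hA r R N hS (piece_all hW hp1 hp2 hS t ht))

end Pool.Agent.H10.PB
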