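/-
helper10: FINB, the rank one theorem (only WIN as a hypothesis in `FINW`).
-/
import Pool.Agent.H10.PB.Fin
import Pool.Agent.H2.PB.Hall
import Pool.Agent.H20.PB.PIECE1
import Pool.Agent.H20.PB.STATE
import Pool.Agent.H34.PB.AVG
import Pool.Agent.H34.PB.ERG
import Pool.Agent.H36.PB.NCL
import Pool.Agent.H21.PB.WINA
import Pool.Agent.H21.PB.WIN
import Pool.Agent.H47.PB.CLOSE
import Pool.Agent.H47.PB.COMB
import Pool.Agent.H47.PB.SEQN
import Pool.Agent.H47.PB.STABN
import Pool.Agent.H97.PB.APPRB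

set_option autoImplicit false

open MeasureTheory Filter Topology
open Pool.Agent.H10.PS

namespace Pool.Agent.H10.PB

theorem FINW (hW : T_WIN) (G : Type) [Group G] (hG : Group.FG G) (M : Subgroup G)
    (hab : ∀ a ∈ M, ∀ b ∈ M, a * b = b * a) (hc : commutator G ≤ M) (t₀ : G)
    (ht : (M ⊔ Subgroup.zpowers t₀).FiniteIndex) : PermStable G :=
  FIN (fun Γ _ h1 h2 => Pool.Agent.H2.PB.t_HALL Pool.Agent.H2.PB.t_MODRF Pool.Agent.H2.PB.t_FAB Γ h1 h2)
    Pool.Agent.H47.PB.CLOSE
    Pool.Agent.H20.PB.STATE (Pool.Agent.H34.PB.erg Pool.Agent.H47.PB.COMB) Pool.Agent.H34.PB.avg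
    Pool.Agent.H20.PB.PIECE1 hW Pool.Agent.H97.PB.apprb Pool.Agent.H47.PB.SEQN
    Pool.Agent.H47.PB.STABN G hG M hab hc t₀ ht

/-- The rank one theorem: a finitely generated group with an abelian subgroup `M` containing the
commutator subgroup, such that `M` together with one element generates a subgroup of finite index,
is permutation stable. -/
theorem FINB (G : Type) [Group G] (hG : Group.FG G) (M : Subgroup G)
    (hab : ∀ a ∈ M, ∀ b ∈ M, a * b = b * a) (hc : commutator G ≤ M) (t₀ : G)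
    (ht : (M ⊔ Subgroup.zpowers t₀).FiniteIndex) : PermStable G :=
  FINW (Pool.Agent.H21.PB.t_WIN Pool.Agent.H36.PB.t_NCL Pool.Agent.H21.PB.t_WINA)
    G hG M hab hc t₀ ht

end Pool.Agent.H10.PB
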